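import Pool.Agent.Lib.H40F.Defs

/-!
# A1. The attaching lemma for an arbitrary critical set

Copy of the proof of `Fails.of_bigDeg` in `Pool/Agent/Lib/StrongMax/Kernel.lean` with
`bigDeg H μ` replaced by `S`; the part `h1` of that proof ((vertices of large degree are not mapped
to private vertices) is now the hypothesis `hS`. (In the proof of `Fails.of_bigDeg` the map `φ` has
`∀ x y, H.Adj x y → (∃ e ∈ I₀, Sym2.map Sum.inl e = s(φ x, φ y)) ∨ ∃ k, s(φ x, φ y) ∈ kEdges H S k`,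
use `mem_kEdges` to see that `IsKEmb H S φ`.)
-/

namespace Pool.Agent.H40F

open Pool.Agent.StrongMax Cardinal

universe u

theorem A1 {W : Type u} {H : SimpleGraph W} (S : Set W)
    (hS : ∀ (V₀ K : Type u) (φ : W → V₀ ⊕ ((S → V₀) × K × W)), IsKEmb H S φ →
      ∀ x ∈ S, ∃ v, φ x = Sum.inl v)
    (hA : Fails.{u} (H.induce S)) (hAe : ∃ a b, (H.induce S).Adj a b) : Fails.{u} H := by
  classical
  refine Fails.of_partsU hA hAe (fun V₀ K => (S → V₀) × K × W)
    (fun V₀ K k => kEdges H S k) ?_ ?_ ?_ ?_ ?_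
  · rintro V₀ K k e ⟨v, w, rfl, h⟩ a ha
    induction a with
    | _ x y =>
      rw [Sym2.map_mk, Sym2.eq_iff] at ha
      rcases ha with ⟨rfl, rfl⟩ | ⟨rfl, rfl⟩
      · exact h
      · exact h
  · rintro V₀ K k e ⟨v, w, rfl, h⟩ hd
    rw [Sym2.mk_isDiag_iff] at hd
    subst hd
    rcases v with v | a
    · exact h
    · exact H.irrefl h.2.2.2.2.2
  · rintro V₀ K k l e ⟨v, w, rfl, h⟩ h'
    rw [mem_kEdges] at h'
    rcases v with v | a <;> rcases w with w | b
    · exact h.elim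
    · exact h.1.symm.trans h'.1
    · exact h.1.symm.trans h'.1
    · exact h.2.1.symm.trans h'.2.1
  · intro V₀ K I₀ hI₀
    rw [hFree_iff] at hI₀ ⊢
    intro φ hφ hφa
    have hK : IsKEmb H S φ := by
      refine ⟨hφ, fun x y hxy => ?_⟩
      rcases hφa x y hxy with ⟨e, -, he⟩ | ⟨k, hk⟩
      · left
        induction e with
        | _ p q =>
          rw [Sym2.map_mk, Sym2.eq_iff] at he
          rcases he with ⟨h1, h2⟩ | ⟨h1, h2⟩
          · exact ⟨p, q, h1.symm, h2.symm⟩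
          · exact ⟨q, p, h2.symm, h1.symm⟩
      · right
        rw [mem_kEdges] at hk
        exact ⟨k, hk⟩
    have h1 : ∀ x : S, ∃ v, φ x.1 = .inl v := fun x => hS V₀ K φ hK x.1 x.2
    choose g hg using h1
    refine hI₀ g ?_ ?_
    · intro x y hxy
      apply Subtype.ext
      apply hφ
      rw [hg x, hg y, hxy]
    · intro x y hxy
      rcases hφa x.1 y.1 hxy with ⟨e, he, hee⟩ | ⟨k, hk⟩
      · rw [hg x, hg y] at hee
        have h2 : Sym2.map (Sum.inl : V₀ → V₀ ⊕ ((S → V₀) × K × W)) e =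
            Sym2.map Sum.inl s(g x, g y) := by rw [hee]; rfl
        exact (Sym2.map.injective Sum.inl_injective h2) ▸ he
      · rw [hg x, hg y, mem_kEdges] at hk
        exact hk.elim
  · intro V₀ K F₀ Good hGood hF₀
    rw [not_hFree_iff] at hF₀ ⊢
    obtain ⟨f, hf, hfa⟩ := hF₀
    obtain ⟨k, hk⟩ := hGood.nonempty
    have hval : ∀ z, ∃ t : V₀ ⊕ ((S → V₀) × K × W),
        (∀ hz : z ∈ S, t = .inl (f ⟨z, hz⟩)) ∧ (z ∉ S → t = .inr (f, k, z)) := by
      intro z
      by_cases hz : z ∈ S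
      · exact ⟨.inl (f ⟨z, hz⟩), fun _ => rfl, fun h => absurd hz h⟩
      · exact ⟨.inr (f, k, z), fun h => absurd h hz, fun _ => rfl⟩
    choose ψ hψ1 hψ2 using hval
    refine ⟨ψ, ?_, ?_⟩
    · intro x y hxy
      by_cases hx : x ∈ S <;> by_cases hy : y ∈ S
      · rw [hψ1 x hx, hψ1 y hy] at hxy
        exact congrArg Subtype.val (hf (Sum.inl_injective hxy))
      · rw [hψ1 x hx, hψ2 y hy] at hxy
        exact absurd hxy (by simp)
      · rw [hψ2 x hx, hψ1 y hy] at hxy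
        exact absurd hxy (by simp)
      · rw [hψ2 x hx, hψ2 y hy] at hxy
        exact congrArg (fun t => t.2.2) (Sum.inr_injective hxy)
    · intro x y hxy
      by_cases hx : x ∈ S <;> by_cases hy : y ∈ S
      · rw [hψ1 x hx, hψ1 y hy]
        exact Or.inl ⟨_, hfa ⟨x, hx⟩ ⟨y, hy⟩ hxy, rfl⟩
      · rw [hψ1 x hx, hψ2 y hy]
        refine Or.inr ⟨k, hk, ?_⟩
        rw [mem_kEdges]
        exact ⟨rfl, hy, ⟨x, hx⟩, rfl, hxy.symm⟩
      · rw [hψ2 x hx, hψ1 y hy]
        refine Or.inr ⟨k, hk, ?_⟩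
        rw [mem_kEdges]
        exact ⟨rfl, hx, ⟨y, hy⟩, rfl, hxy⟩
      · rw [hψ2 x hx, hψ2 y hy]
        refine Or.inr ⟨k, hk, ?_⟩
        rw [mem_kEdges]
        exact ⟨rfl, rfl, rfl, hx, hy, hxy⟩

end Pool.Agent.H40F
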