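import Pool.Agent.Lib.H40F.Defs

/-!
# B1. Segments in private copies

A walk `g 0, g 1, …, g (m+1)` of `H` (`m ≥ 1`) whose inner vertices are mapped to private vertices
and whose ends are mapped to `V₀` runs through ONE private copy `(ρ, k)`.

Proof. Induction on `i` (`1 ≤ i ≤ m`): `φ (g i) = inr a` and `φ (g (i+1)) = inr b`; the edge is not
of the first kind (both `inl`), so `kAdj H S k (inr a) (inr b)`: `a.1 = b.1`, `a.2.1 = k = b.2.1`,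
`a.2.2 ∉ S`, `b.2.2 ∉ S`, `H.Adj a.2.2 b.2.2`. The first edge `φ (g 0) = inl v`, `φ (g 1) = inr a`
is `kAdj H S k (inl v) (inr a)`: there is `s : S` with `a.1 s = v` and `H.Adj a.2.2 s`. The last edge
is the same with `(inr a) (inl v')`. Take `ρ`, `k` from `g 1` and `z i := (φ (g i)).2.2`.
-/

namespace Pool.Agent.H40F

open Pool.Agent.StrongMax

universe u

theorem b1_rr {W : Type u} {H : SimpleGraph W} {S : Set W} {V₀ K : Type u}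
    {φ : W → V₀ ⊕ ((S → V₀) × K × W)} (hφ : IsKEmb H S φ) {x y : W} {a b : (S → V₀) × K × W}
    (hxy : H.Adj x y) (ha : φ x = Sum.inr a) (hb : φ y = Sum.inr b) :
    a.1 = b.1 ∧ a.2.1 = b.2.1 ∧ a.2.2 ∉ S ∧ b.2.2 ∉ S ∧ H.Adj a.2.2 b.2.2 := by
  rcases hφ.2 x y hxy with ⟨v, w, h1, h2⟩ | ⟨k, hk⟩
  · rw [ha] at h1
    exact absurd h1 Sum.inr_ne_inl
  · rw [ha, hb] at hk
    obtain ⟨h1, h2, h3, h4, h5, h6⟩ := hk
    exact ⟨h1, h2.trans h3.symm, h4, h5, h6⟩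

theorem b1_lr {W : Type u} {H : SimpleGraph W} {S : Set W} {V₀ K : Type u}
    {φ : W → V₀ ⊕ ((S → V₀) × K × W)} (hφ : IsKEmb H S φ) {x y : W} {v : V₀} {a : (S → V₀) × K × W}
    (hxy : H.Adj x y) (hv : φ x = Sum.inl v) (ha : φ y = Sum.inr a) :
    a.2.2 ∉ S ∧ ∃ s : S, a.1 s = v ∧ H.Adj a.2.2 s.1 := by
  rcases hφ.2 x y hxy with ⟨v', w, h1, h2⟩ | ⟨k, hk⟩
  · rw [ha] at h2
    exact absurd h2 Sum.inr_ne_inl
  · rw [hv, ha] at hk
    obtain ⟨h1, h2, h3⟩ := hk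
    exact ⟨h2, h3⟩

theorem B1 {W : Type u} {H : SimpleGraph W} {S : Set W} {V₀ K : Type u}
    {φ : W → V₀ ⊕ ((S → V₀) × K × W)} (hφ : IsKEmb H S φ) (g : ℕ → W) (m : ℕ) (hm : 1 ≤ m)
    (hg : ∀ i, i ≤ m → H.Adj (g i) (g (i + 1))) (v v' : V₀) (hv : φ (g 0) = Sum.inl v)
    (hv' : φ (g (m + 1)) = Sum.inl v') (hin : ∀ i, 1 ≤ i → i ≤ m → ∃ a, φ (g i) = Sum.inr a) :
    ∃ (ρ : S → V₀) (k : K) (z : ℕ → W) (s s' : S),
      (∀ i, 1 ≤ i → i ≤ m → φ (g i) = Sum.inr (ρ, k, z i) ∧ z i ∉ S) ∧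
      (∀ i, 1 ≤ i → i < m → H.Adj (z i) (z (i + 1))) ∧
      H.Adj s.1 (z 1) ∧ H.Adj (z m) s'.1 ∧ ρ s = v ∧ ρ s' = v' := by
  obtain ⟨a, ha⟩ := hin 1 le_rfl hm
  obtain ⟨z, hz⟩ : ∃ z : ℕ → W, ∀ i b, φ (g i) = Sum.inr b → z i = b.2.2 := by
    refine ⟨fun i => Sum.elim (fun _ => g 0) (fun b => b.2.2) (φ (g i)), ?_⟩
    intro i b hb
    beta_reduce
    rw [hb, Sum.elim_inr]
  have hfirst := b1_lr hφ (hg 0 (Nat.zero_le m)) hv ha
  have key : ∀ i, 1 ≤ i → i ≤ m → φ (g i) = Sum.inr (a.1, a.2.1, z i) ∧ z i ∉ S := by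
    intro i hi
    induction i, hi using Nat.le_induction with
    | base =>
      intro _
      rw [hz 1 a ha]
      exact ⟨ha, hfirst.1⟩
    | succ i hi ih =>
      intro him
      obtain ⟨h1, h2⟩ := ih (by omega)
      obtain ⟨b, hb⟩ := hin (i + 1) (by omega) him
      obtain ⟨e1, e2, e3, e4, e5⟩ := b1_rr hφ (hg i (by omega)) h1 hb
      rw [hz (i + 1) b hb]
      refine ⟨?_, e4⟩
      rw [hb]
      have e1' : a.1 = b.1 := e1
      have e2' : a.2.1 = b.2.1 := e2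
      rw [e1', e2']
  have hadj : ∀ i, 1 ≤ i → i < m → H.Adj (z i) (z (i + 1)) := by
    intro i hi him
    exact (b1_rr hφ (hg i him.le) (key i hi him.le).1 (key (i + 1) (by omega) him).1).2.2.2.2
  have hz1 : z 1 = a.2.2 := hz 1 a ha
  obtain ⟨-, s, hs, hs'⟩ := hfirst
  obtain ⟨-, s2, hs2, hs2'⟩ := b1_lr hφ (hg m le_rfl).symm hv' (key m hm le_rfl).1
  refine ⟨a.1, a.2.1, z, s, s2, key, hadj, ?_, hs2', hs, hs2⟩
  rw [hz1]
  exact hs'.symm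

end Pool.Agent.H40F
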