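import Pool.Agent.Lib.H40F.B1

/-!
# B2. Short paths with both ends in `V₀`

`S = core H L`. A path of length `n ≤ L` of `H` whose ends are mapped to `V₀` is mapped to `V₀`.

Proof. Suppose `φ (f j)` is private, `0 < j < n`. Let `i < j` be the last index below `j` with
`φ (f i)` in `V₀` and `i' > j` the first index above `j` with `φ (f i')` in `V₀`; `m = i' - i - 1 ≥ 1`.
`B1` for `g t = f (i + t)` gives `ρ, k, z, s, s'`. As `i ≠ i'`, `f i ≠ f i'`, so `v ≠ v'`
(`φ` injective) and `s ≠ s'`. The vertices `s, z 1, …, z m, s'` are distinct (the `z i` are distinct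
because `φ (f (i + t)) = inr (ρ, k, z t)`, and they are not in `S` whereas `s, s'` are), consecutive
ones are adjacent: a path of length `m + 1 ≤ n ≤ L` with both ends in the core. By `InCore.path`,
`z 1` is in the core, contradiction.
-/

namespace Pool.Agent.H40F

open Pool.Agent.StrongMax

universe u

theorem B2 {W : Type u} {H : SimpleGraph W} {L : ℕ∞} {V₀ K : Type u}
    {φ : W → V₀ ⊕ ((core H L → V₀) × K × W)} (hφ : IsKEmb H (core H L) φ) (n : ℕ) (f : ℕ → W)
    (hL : (n : ℕ∞) ≤ L) (hf : ∀ i j, i ≤ n → j ≤ n → f i = f j → i = j)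
    (ha : ∀ i, i < n → H.Adj (f i) (f (i + 1))) (h0 : ∃ v, φ (f 0) = Sum.inl v)
    (h1 : ∃ v, φ (f n) = Sum.inl v) (i : ℕ) (hi : i ≤ n) : ∃ v, φ (f i) = Sum.inl v := by
  classical
  by_contra hcon
  set P : ℕ → Prop := fun t => ∃ v, φ (f t) = Sum.inl v with hP
  have hP0 : P 0 := h0
  have hPn : P n := h1
  have hPi : ¬ P i := hcon
  -- the last index below
  have ha1 : P (Nat.findGreatest P i) := Nat.findGreatest_spec (Nat.zero_le i) hP0
  have ha2 : Nat.findGreatest P i ≤ i := Nat.findGreatest_le i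
  have ha3 : ∀ t, Nat.findGreatest P i < t → t ≤ i → ¬ P t := fun t h2 h3 =>
    Nat.findGreatest_is_greatest h2 h3
  generalize Nat.findGreatest P i = i0 at ha1 ha2 ha3
  have hex : ∃ t, i ≤ t ∧ P t := ⟨n, hi, hPn⟩
  have hb1 := Nat.find_spec hex
  have hb2 : ∀ t, t < Nat.find hex → ¬ (i ≤ t ∧ P t) := fun t ht => Nat.find_min hex ht
  have hb3 : Nat.find hex ≤ n := Nat.find_min' hex ⟨hi, hPn⟩
  generalize Nat.find hex = i1 at hb1 hb2 hb3
  obtain ⟨hb0, hb1⟩ := hb1
  have hlt0 : i0 < i := lt_of_le_of_ne ha2 fun h => hPi (h ▸ ha1)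
  have hlt1 : i < i1 := lt_of_le_of_ne hb0 fun h => hPi (h ▸ hb1)
  obtain ⟨v, hv⟩ := ha1
  obtain ⟨v', hv'⟩ := hb1
  obtain ⟨m, hm⟩ : ∃ m, i1 = i0 + (m + 1) := ⟨i1 - i0 - 1, by omega⟩
  have hm1 : 1 ≤ m := by omega
  have hin : ∀ t, 1 ≤ t → t ≤ m → ∃ a, φ (f (i0 + t)) = Sum.inr a := by
    intro t ht htm
    have hnP : ¬ P (i0 + t) := by
      by_cases h2 : i0 + t ≤ i
      · exact ha3 _ (by omega) h2
      · intro h3
        exact hb2 (i0 + t) (by omega) ⟨by omega, h3⟩
    rcases hft : φ (f (i0 + t)) with w | a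
    · exact absurd ⟨w, hft⟩ hnP
    · exact ⟨a, rfl⟩
  obtain ⟨ρ, k, z, s, s', hz, hzz, hs, hs', hρ, hρ'⟩ :=
    B1 hφ (fun t => f (i0 + t)) m hm1 (fun t ht => ha (i0 + t) (by omega)) v v' hv
      (by rw [← hv', hm]) hin
  have hvv : v ≠ v' := by
    intro h
    have h2 : φ (f i0) = φ (f i1) := by rw [hv, hv', h]
    have h3 := hf i0 i1 (by omega) hb3 (hφ.1 h2)
    omega
  have hss : s ≠ s' := by
    intro h
    apply hvv
    rw [← hρ, ← hρ', h]
  have hzinj : ∀ a b, 1 ≤ a → a ≤ m → 1 ≤ b → b ≤ m → z a = z b → a = b := by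
    intro a b ha1 ham hb1 hbm hab
    have h2 : φ (f (i0 + a)) = φ (f (i0 + b)) := by
      have e1 := (hz a ha1 ham).1
      have e2 := (hz b hb1 hbm).1
      beta_reduce at e1 e2
      rw [e1, e2, hab]
    have h3 := hf (i0 + a) (i0 + b) (by omega) (by omega) (hφ.1 h2)
    omega
  have hzs : ∀ (a : ℕ) (r : core H L), 1 ≤ a → a ≤ m → z a ≠ r.1 := by
    intro a r ha1 ham h
    exact (hz a ha1 ham).2 (h ▸ r.2)
  obtain ⟨p, hp0, hpm, hpl⟩ : ∃ p : ℕ → W, p 0 = s.1 ∧ (∀ t, 1 ≤ t → t ≤ m → p t = z t) ∧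
      p (m + 1) = s'.1 := by
    refine ⟨fun t => if t = 0 then s.1 else if t ≤ m then z t else s'.1, by simp, ?_, ?_⟩
    · intro t ht htm
      beta_reduce
      rw [if_neg (by omega), if_pos htm]
    · beta_reduce
      rw [if_neg (by omega), if_neg (by omega)]
  have hLm : ((m + 1 : ℕ) : ℕ∞) ≤ L := le_trans (by exact_mod_cast (by omega : m + 1 ≤ n)) hL
  have hpinj : ∀ a b, a ≤ m + 1 → b ≤ m + 1 → p a = p b → a = b := by
    have hw : ∀ a b, a < b → b ≤ m + 1 → p a ≠ p b := by
      intro a b hab hbm h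
      rcases Nat.eq_zero_or_pos a with ha0 | ha0
      · rw [ha0, hp0] at h
        rcases Nat.lt_or_ge m b with hbm' | hbm'
        · have : b = m + 1 := by omega
          rw [this, hpl] at h
          exact hss (Subtype.ext h)
        · rw [hpm b (by omega) hbm'] at h
          exact hzs b s (by omega) hbm' h.symm
      · rw [hpm a ha0 (by omega)] at h
        rcases Nat.lt_or_ge m b with hbm' | hbm'
        · have : b = m + 1 := by omega
          rw [this, hpl] at h
          exact hzs a s' ha0 (by omega) h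
        · rw [hpm b (by omega) hbm'] at h
          have := hzinj a b ha0 (by omega) (by omega) hbm' h
          omega
    intro a b ham hbm hab
    rcases Nat.lt_trichotomy a b with h | h | h
    · exact absurd hab (hw a b h hbm)
    · exact h
    · exact absurd hab.symm (hw b a h ham)
  have hpadj : ∀ t, t < m + 1 → H.Adj (p t) (p (t + 1)) := by
    intro t ht
    rcases Nat.eq_zero_or_pos t with ht0 | ht0
    · rw [ht0, hp0, hpm 1 le_rfl hm1]
      exact hs
    · rw [hpm t ht0 (by omega)]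
      rcases Nat.lt_or_ge t m with htm | htm
      · rw [hpm (t + 1) (by omega) htm]
        exact hzz t ht0 htm
      · have : t = m := by omega
        rw [this, hpl]
        exact hs'
  have hcore : InCore H L (p 1) :=
    InCore.path (m + 1) p hLm hpinj hpadj (by rw [hp0]; exact s.2) (by rw [hpl]; exact s'.2) 1 (by omega)
  rw [hpm 1 le_rfl hm1] at hcore
  exact (hz 1 le_rfl hm1).2 hcore

end Pool.Agent.H40F
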