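import Pool.Agent.Lib.H40F.B1

/-!
# B3. Short cycles

`S = core H L`. A cycle of length `n ≤ L` of `H` is mapped to `V₀`.

Proof. (a) Suppose that all `φ (f i)` are private. As in `B1` (all edges are of the kind
`kAdj H S k (inr a) (inr b)`), `φ (f i) = inr (ρ, k, z i)` with the same `ρ, k` for all `i`
(induction on `i`: `f (i + 1)` has the same `ρ, k` as `f i`; every element of `ZMod n` is the cast of
a natural number), `z i ∉ S`, `z` is injective, `z i` is adjacent to `z (i + 1)`: a cycle of length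
`n ≤ L`, so `z 0` is in the core by `InCore.cyc`, contradiction.
(b) Otherwise, if some `φ (f j)` is private, there is an index `i` with `φ (f i)` in `V₀` and
`φ (f (i + 1))` private. Let `m ≥ 1` be maximal with `φ (f (i + 1)), …, φ (f (i + m))` private; so
`φ (f (i + m + 1))` is in `V₀` and `m + 1 ≤ n`. `B1` for `g t = f (i + t)` gives `ρ, k, z, s, s'`.
The `z t`, `1 ≤ t ≤ m`, are distinct and not in `S`. If `s ≠ s'`: the path `s, z 1, …, z m, s'` of
length `m + 1 ≤ L` has both ends in the core: `z 1` is in the core, contradiction. If `s = s'` then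
`v = v'`, so `f i = f (i + m + 1)`, hence `n` divides `m + 1`, `m + 1 = n ≥ 3`, and
`s, z 1, …, z m` is a cycle of length `n ≤ L` (`InCore.cyc` with the map `ZMod n → W`,
`t ↦ if t.val = 0 then s else z t.val`), so `z 1` is in the core, contradiction.
-/

namespace Pool.Agent.H40F

open Pool.Agent.StrongMax

universe u

theorem b3_step {W : Type u} {H : SimpleGraph W} {S : Set W} {V₀ K : Type u}
    {φ : W → V₀ ⊕ ((S → V₀) × K × W)} (hφ : IsKEmb H S φ) {x y : W} (h : H.Adj x y)
    {a b : (S → V₀) × K × W} (hx : φ x = Sum.inr a) (hy : φ y = Sum.inr b) :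
    a.1 = b.1 ∧ a.2.1 = b.2.1 ∧ a.2.2 ∉ S ∧ b.2.2 ∉ S ∧ H.Adj a.2.2 b.2.2 := by
  rcases hφ.2 x y h with ⟨v, w, hv, _⟩ | ⟨k, hk⟩
  · rw [hx] at hv
    exact absurd hv (by simp)
  · rw [hx, hy] at hk
    obtain ⟨h1, h2, h3, h4, h5, h6⟩ := hk
    exact ⟨h1, h2.trans h3.symm, h4, h5, h6⟩

theorem b3_const {n : ℕ} [NeZero n] {α : Type u} {c : ZMod n → α} (h : ∀ i, c (i + 1) = c i)
    (i : ZMod n) : c i = c 0 := by
  have h1 : ∀ k : ℕ, c (k : ZMod n) = c 0 := by
    intro k
    induction k with
    | zero => rw [Nat.cast_zero]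
    | succ k ih => rw [Nat.cast_succ, h, ih]
  have h2 := h1 i.val
  rwa [ZMod.natCast_zmod_val] at h2

theorem b3_allpriv {W : Type u} {H : SimpleGraph W} {L : ℕ∞} {V₀ K : Type u}
    {φ : W → V₀ ⊕ ((core H L → V₀) × K × W)} (hφ : IsKEmb H (core H L) φ) (n : ℕ)
    (f : ZMod n → W) (hn : 3 ≤ n) (hL : (n : ℕ∞) ≤ L) (hf : Function.Injective f)
    (ha : ∀ i, H.Adj (f i) (f (i + 1))) (h : ∀ i, ∃ a, φ (f i) = Sum.inr a) : False := by
  have : NeZero n := ⟨by omega⟩
  choose a hfa using h
  have hs := fun i => b3_step hφ (ha i) (hfa i) (hfa (i + 1))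
  have h1 : ∀ i, (a i).1 = (a 0).1 := b3_const (c := fun i => (a i).1) fun i => (hs i).1.symm
  have h2 : ∀ i, (a i).2.1 = (a 0).2.1 := b3_const (c := fun i => (a i).2.1) fun i => (hs i).2.1.symm
  have h3 : Function.Injective fun i => (a i).2.2 := by
    intro i j hij
    apply hf
    apply hφ.1
    rw [hfa, hfa]
    congr 1
    refine Prod.ext ((h1 i).trans (h1 j).symm) (Prod.ext ((h2 i).trans (h2 j).symm) hij)
  exact (hs 0).2.2.1 (InCore.cyc n (fun i => (a i).2.2) hn hL h3 (fun i => (hs i).2.2.2.2) 0)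

theorem b3_cast {n : ℕ} {t t' : ℕ} (h : t < n) (h' : t' < n) (e : (t : ZMod n) = t') : t = t' := by
  rw [ZMod.natCast_eq_natCast_iff'] at e
  rwa [Nat.mod_eq_of_lt h, Nat.mod_eq_of_lt h'] at e

theorem B3 {W : Type u} {H : SimpleGraph W} {L : ℕ∞} {V₀ K : Type u}
    {φ : W → V₀ ⊕ ((core H L → V₀) × K × W)} (hφ : IsKEmb H (core H L) φ) (n : ℕ)
    (f : ZMod n → W) (hn : 3 ≤ n) (hL : (n : ℕ∞) ≤ L) (hf : Function.Injective f)
    (ha : ∀ i, H.Adj (f i) (f (i + 1))) (i : ZMod n) : ∃ v, φ (f i) = Sum.inl v := by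
  classical
  have hn0 : NeZero n := ⟨by omega⟩
  by_contra hi
  have hpr : ∀ j, (¬∃ v, φ (f j) = Sum.inl v) → ∃ a, φ (f j) = Sum.inr a := by
    intro j hj
    rcases h : φ (f j) with v | a
    · exact absurd ⟨v, h⟩ hj
    · exact ⟨a, rfl⟩
  -- there is an index with `φ (f i)` in `V₀`
  have hex : ∃ j, ∃ v, φ (f j) = Sum.inl v := by
    by_contra hno
    push Not at hno
    exact b3_allpriv hφ n f hn hL hf ha fun j => hpr j fun ⟨v, hv⟩ => hno j v hv
  have hex2 : ∃ j, (∃ v, φ (f j) = Sum.inl v) ∧ ¬∃ v, φ (f (j + 1)) = Sum.inl v := by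
    by_contra hno
    push Not at hno
    obtain ⟨j, v, hv⟩ := hex
    have h1 : ∀ k : ℕ, ∃ v, φ (f (j + k)) = Sum.inl v := by
      intro k
      induction k with
      | zero =>
        rw [Nat.cast_zero, add_zero]
        exact ⟨v, hv⟩
      | succ k ih =>
        have h2 := hno (j + k) ih
        rw [Nat.cast_succ, ← add_assoc]
        exact h2
    apply hi
    have h2 := h1 (i - j).val
    rwa [ZMod.natCast_zmod_val, add_sub_cancel] at h2
  obtain ⟨j, ⟨v, hv⟩, hj1⟩ := hex2
  have hret : ∃ t : ℕ, 1 ≤ t ∧ ∃ v, φ (f (j + (t : ZMod n))) = Sum.inl v := by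
    refine ⟨n, by omega, v, ?_⟩
    rw [ZMod.natCast_self, add_zero]
    exact hv
  obtain ⟨hm1, v', hv'⟩ := Nat.find_spec hret
  have hmin : ∀ t, 1 ≤ t → t < Nat.find hret → ∃ a, φ (f (j + (t : ZMod n))) = Sum.inr a := by
    intro t ht1 ht2
    refine hpr _ fun h => ?_
    exact Nat.find_min hret ht2 ⟨ht1, h⟩
  have hle : Nat.find hret ≤ n := by
    refine Nat.find_min' hret ⟨by omega, v, ?_⟩
    rw [ZMod.natCast_self, add_zero]
    exact hv
  have hge : 2 ≤ Nat.find hret := by
    by_contra h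
    have h1 : Nat.find hret = 1 := by omega
    rw [h1, Nat.cast_one] at hv'
    exact hj1 ⟨v', hv'⟩
  obtain ⟨m, hm⟩ : ∃ m, Nat.find hret = m + 1 := ⟨Nat.find hret - 1, by omega⟩
  rw [hm] at hv' hmin hle hge
  have hm1 : 1 ≤ m := by omega
  obtain ⟨ρ, k, z, s, s', hz, hzz, hs, hs', hρ, hρ'⟩ := B1 hφ (fun t : ℕ => f (j + (t : ZMod n))) m hm1
    (fun t _ => by
      have h1 := ha (j + (t : ZMod n))
      rw [add_assoc] at h1
      push_cast
      exact h1) v v' (by
      rw [Nat.cast_zero, add_zero]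
      exact hv) hv' (fun t h1 h2 => hmin t h1 (by omega))
  have hzinj : ∀ t t', 1 ≤ t → t ≤ m → 1 ≤ t' → t' ≤ m → z t = z t' → t = t' := by
    intro t t' h1 h2 h3 h4 h5
    have h6 : φ (f (j + (t : ZMod n))) = φ (f (j + (t' : ZMod n))) := by
      rw [(hz t h1 h2).1, (hz t' h3 h4).1, h5]
    have h7 := add_left_cancel (hf (hφ.1 h6))
    exact b3_cast (by omega) (by omega) h7
  have hL' : ((m + 1 : ℕ) : ℕ∞) ≤ L := le_trans (by exact_mod_cast hle) hL
  by_cases hss : s = s'
  · have hvv : v = v' := by rw [← hρ, ← hρ', hss]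
    have h1 : f j = f (j + ((m + 1 : ℕ) : ZMod n)) := hφ.1 (by rw [hv, hv', hvv])
    have h2 : ((m + 1 : ℕ) : ZMod n) = 0 := by
      have h3 := hf h1
      exact (left_eq_add.1 h3)
    have h3 : m + 1 = n := by
      rw [ZMod.natCast_eq_zero_iff] at h2
      have := Nat.le_of_dvd (by omega) h2
      omega
    set F : ZMod n → W := fun t => if t.val = 0 then (s : W) else z t.val with hF
    have hvl : ∀ t : ZMod n, t.val < n := fun t => ZMod.val_lt t
    have hsucc : ∀ t : ZMod n, (t + 1).val = if t.val + 1 = n then 0 else t.val + 1 := by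
      intro t
      rw [ZMod.val_add, ZMod.val_one_eq_one_mod, Nat.mod_eq_of_lt (by omega : 1 < n)]
      have := hvl t
      split_ifs with h
      · rw [h, Nat.mod_self]
      · exact Nat.mod_eq_of_lt (by omega)
    have hFinj : Function.Injective F := by
      intro t t' htt
      apply ZMod.val_injective n
      have h4 := hvl t
      have h5 := hvl t'
      by_cases h6 : t.val = 0 <;> by_cases h7 : t'.val = 0
      · rw [h6, h7]
      · exfalso
        rw [hF] at htt
        dsimp only at htt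
        rw [if_pos h6, if_neg h7] at htt
        exact (hz t'.val (by omega) (by omega)).2 (htt ▸ s.2)
      · exfalso
        rw [hF] at htt
        dsimp only at htt
        rw [if_neg h6, if_pos h7] at htt
        exact (hz t.val (by omega) (by omega)).2 (htt ▸ s.2)
      · rw [hF] at htt
        dsimp only at htt
        rw [if_neg h6, if_neg h7] at htt
        exact hzinj _ _ (by omega) (by omega) (by omega) (by omega) htt
    have hFadj : ∀ t, H.Adj (F t) (F (t + 1)) := by
      intro t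
      rw [hF]
      dsimp only
      rw [hsucc t]
      have h4 := hvl t
      by_cases h5 : t.val = 0
      · have h6 : ¬t.val + 1 = n := by omega
        rw [if_pos h5, if_neg h6, if_neg (by omega), h5]
        exact hs
      · rw [if_neg h5]
        by_cases h6 : t.val + 1 = n
        · rw [if_pos h6, if_pos rfl, hss]
          have h7 : t.val = m := by omega
          rw [h7]
          exact hs'
        · rw [if_neg h6, if_neg (by omega)]
          exact hzz _ (by omega) (by omega)
    have h4 := InCore.cyc n F hn hL hFinj hFadj 1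
    have h5 : (1 : ZMod n).val = 1 := by
      rw [ZMod.val_one_eq_one_mod, Nat.mod_eq_of_lt (by omega)]
    have h6 : F 1 = z 1 := by
      rw [hF]
      dsimp only
      rw [h5, if_neg one_ne_zero]
    rw [h6] at h4
    exact (hz 1 le_rfl hm1).2 h4
  · set p : ℕ → W := fun t => if t = 0 then (s : W) else if t ≤ m then z t else s' with hp
    have hp0 : p 0 = s := rfl
    have hpz : ∀ t, 1 ≤ t → t ≤ m → p t = z t := by
      intro t h1 h2
      rw [hp]
      dsimp only
      rw [if_neg (by omega), if_pos h2]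
    have hpm : p (m + 1) = s' := by
      rw [hp]
      dsimp only
      rw [if_neg (by omega), if_neg (by omega)]
    have hne : (s : W) ≠ s' := fun h => hss (Subtype.ext h)
    have hcase : ∀ t, t ≤ m + 1 → t = 0 ∨ (1 ≤ t ∧ t ≤ m) ∨ t = m + 1 := by
      intro t ht
      omega
    have hpinj : ∀ t t', t ≤ m + 1 → t' ≤ m + 1 → p t = p t' → t = t' := by
      intro t t' h1 h2 h3
      rcases hcase t h1 with e | ⟨e1, e2⟩ | e <;> rcases hcase t' h2 with e' | ⟨e1', e2'⟩ | e'
      · rw [e, e']
      · rw [e, hp0, hpz t' e1' e2'] at h3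
        exact absurd (h3 ▸ s.2) (hz t' e1' e2').2
      · rw [e, e', hp0, hpm] at h3
        exact absurd h3 hne
      · rw [e', hp0, hpz t e1 e2] at h3
        exact absurd (h3 ▸ s.2) (hz t e1 e2).2
      · rw [hpz t e1 e2, hpz t' e1' e2'] at h3
        exact hzinj _ _ e1 e2 e1' e2' h3
      · rw [e', hpm, hpz t e1 e2] at h3
        exact absurd (h3 ▸ s'.2) (hz t e1 e2).2
      · rw [e, e', hp0, hpm] at h3
        exact absurd h3.symm hne
      · rw [e, hpm, hpz t' e1' e2'] at h3
        exact absurd (h3 ▸ s'.2) (hz t' e1' e2').2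
      · rw [e, e']
    have hpadj : ∀ t, t < m + 1 → H.Adj (p t) (p (t + 1)) := by
      intro t ht
      rcases Nat.eq_zero_or_pos t with e | e
      · rw [e, hp0, hpz 1 le_rfl hm1]
        exact hs
      · rcases Nat.lt_or_ge t m with h | h
        · rw [hpz t e h.le, hpz (t + 1) (by omega) h]
          exact hzz t e h
        · have h1 : t = m := by omega
          rw [h1, hpz m hm1 le_rfl, hpm]
          exact hs'
    have h4 := InCore.path (m + 1) p hL' (fun t t' h1 h2 h3 => hpinj t t' h1 h2 h3) hpadj s.2 (hpm ▸ s'.2) 1 (by omega)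
    rw [hpz 1 le_rfl hm1] at h4
    exact (hz 1 le_rfl hm1).2 h4

end Pool.Agent.H40F
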