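import Pool.Agent.Lib.H40F.A1
import Pool.Agent.Lib.H40F.B2
import Pool.Agent.Lib.H40F.B3

/-!
# B4. Reduction to the core, and cores that are locally finite

(i) `B4a`: if the graph induced on a nonempty core fails then `H` fails. Proof: `A1` with
`S = core H L`; `hS` by induction on `InCore` from `B2` and `B3`; an edge of the core: a nonempty
core contains a cycle (induction on `InCore`; lemma `cycle_of_core`).
(ii) `B4b`: if the core is nonempty and the graph induced on it is locally finite then `H` fails.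
Proof: if `H.induce (core H L)` has infinitely many edges use `fails_of_locFin`, otherwise
`fails_of_finEdges`: the cycle of the core (length `n ≥ 3`) has no vertex that meets all its edges:
if every edge `f i, f (i+1)` contained `z` then the two edges `f 0 f 1` and `f 1 f 2` force
`z = f 1`, or ..., in any case one of the three edges `(0,1), (1,2), (2,3)` misses `z`, as
`f 0, f 1, f 2` are distinct and `f 3 ≠ f 1, f 2`: (0,1) and (2,3) have a common vertex only if `n = 3` and `f 3 = f 0`;
then `z = f 0` is not on the edge (1,2).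
-/

namespace Pool.Agent.H40F

open Pool.Agent.StrongMax

universe u

/-- A nonempty core contains a cycle (all of whose vertices are in the core). -/
theorem cycle_of_core {W : Type u} {H : SimpleGraph W} {L : ℕ∞} (hne : (core H L).Nonempty) :
    ∃ (n : ℕ) (f : ZMod n → W), 3 ≤ n ∧ Function.Injective f ∧
      (∀ i, H.Adj (f i) (f (i + 1))) ∧ ∀ i, f i ∈ core H L := by
  obtain ⟨x, hx⟩ := hne
  have hx' : InCore H L x := hx
  induction hx' with
  | cyc n f hn hL hf ha i => exact ⟨n, f, hn, hf, ha, fun j => InCore.cyc n f hn hL hf ha j⟩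
  | path n f hL hf ha h0 h1 i hi ih0 ih1 => exact ih0 h0

theorem B4a {W : Type u} {H : SimpleGraph W} (L : ℕ∞) (hne : (core H L).Nonempty)
    (hA : Fails.{u} (H.induce (core H L))) : Fails.{u} H := by
  refine A1 (core H L) ?_ hA ?_
  · intro V₀ K φ hφ x hx
    have hx' : InCore H L x := hx
    induction hx' with
    | cyc n f hn hL hf ha i => exact B3 hφ n f hn hL hf ha i
    | path n f hL hf ha h0 h1 i hi ih0 ih1 =>
      exact B2 hφ n f hL hf ha (ih0 h0) (ih1 h1) i hi
  · obtain ⟨n, f, hn, hf, ha, hc⟩ := cycle_of_core hne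
    exact ⟨⟨f 0, hc 0⟩, ⟨f (0 + 1), hc (0 + 1)⟩, ha 0⟩

theorem B4b {W : Type u} {H : SimpleGraph W} (L : ℕ∞) (hne : (core H L).Nonempty)
    (hlf : ∀ x ∈ core H L, {y | y ∈ core H L ∧ H.Adj x y}.Finite) : Fails.{u} H := by
  refine B4a L hne ?_
  by_cases hfin : (H.induce (core H L)).edgeSet.Finite
  · refine fails_of_finEdges hfin ?_
    rintro ⟨z, hz⟩
    obtain ⟨n, f, hn, hf, ha, hc⟩ := cycle_of_core hne
    have hn0 : NeZero n := ⟨by omega⟩
    have key : ∀ a b : ℕ, a < n → b < n → f (a : ZMod n) = f (b : ZMod n) → a = b := by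
      intro a b ha' hb' h
      exact b3_cast ha' hb' (hf h)
    have e01 := hz ⟨f 0, hc 0⟩ ⟨f (0 + 1), hc _⟩ (ha 0)
    have e12 := hz ⟨f (0 + 1), hc _⟩ ⟨f (0 + 1 + 1), hc _⟩ (ha (0 + 1))
    have e23 := hz ⟨f (0 + 1 + 1), hc _⟩ ⟨f (0 + 1 + 1 + 1), hc _⟩ (ha (0 + 1 + 1))
    obtain ⟨z, hzc⟩ := z
    simp only [Subtype.mk.injEq] at e01 e12 e23
    have q0 : f 0 = f ((0 : ℕ) : ZMod n) := by push_cast; rfl
    have q1 : f (0 + 1) = f ((1 : ℕ) : ZMod n) := by push_cast; ring_nf
    have q2 : f (0 + 1 + 1) = f ((2 : ℕ) : ZMod n) := by push_cast; ring_nf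
    have n01 : f 0 ≠ f (0 + 1) := fun h => by
      have := key 0 1 (by omega) (by omega) (q0 ▸ q1 ▸ h)
      omega
    have n12 : f (0 + 1) ≠ f (0 + 1 + 1) := fun h => by
      have := key 1 2 (by omega) (by omega) (q1 ▸ q2 ▸ h)
      omega
    have n02 : f 0 ≠ f (0 + 1 + 1) := fun h => by
      have := key 0 2 (by omega) (by omega) (q0 ▸ q2 ▸ h)
      omega
    have n13 : f (0 + 1) ≠ f (0 + 1 + 1 + 1) := fun h => by
      have h2 : ((2 : ℕ) : ZMod n) = 0 := by
        have := hf h
        push_cast
        linear_combination -this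
      rw [ZMod.natCast_eq_zero_iff] at h2
      exact absurd (Nat.le_of_dvd (by omega) h2) (by omega)
    rcases e01 with h | h
    · rcases e12 with h' | h'
      · exact n01 (h.trans h'.symm)
      · exact n02 (h.trans h'.symm)
    · rcases e23 with h' | h'
      · exact n12 (h.trans h'.symm)
      · exact n13 (h.trans h'.symm)
  · refine fails_of_locFin (fun x => ?_) hfin
    have h1 := hlf x.1 x.2
    have h2 : ((H.induce (core H L)).neighborSet x) ⊆ Subtype.val ⁻¹' {y | y ∈ core H L ∧ H.Adj x.1 y} := by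
      intro y hy
      exact ⟨y.2, hy⟩
    exact (h1.preimage Subtype.val_injective.injOn).subset h2

end Pool.Agent.H40F
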