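import Pool.Agent.Lib.H40F.Defs

/-!
# B5. Finitely many cycles: the core is finite

Let the set `B = cycV H` of the vertices on cycles be finite. Then `core H ⊤` is finite.

Proof. For `x, y ∈ B` reachable from each other choose a walk `p x y`. `T` = `B` together with the
supports of these walks: a finite set. Claims:
(1) Any two vertices `a, b ∈ T` which are reachable from each other in `H` are connected by a walk of
`H` with support in `T`: `a` is in `B` or on some `p x y`, hence joined inside `T` to an element
`x ∈ B`; the same for `b` and some `x' ∈ B`; `x, x'` are reachable from each other, so `p x x'` exists.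
(2) Every `x` with `InCore H ⊤ x` is in `T`: induction. Cycles: `B ⊆ T`. Paths: let `f` be a path of
length `n` with `f 0, f n ∈ T` and suppose `f j ∉ T`. Let `i < j` be an index with `f i ∈ T`,
`f (i+1) ∉ T` and let `i' > i + 1` be the first index above `i + 1` with `f i' ∈ T`. The edge
`e = f i f (i+1)` is on a cycle: `f (i+1)` is joined to `f i'` by the path (which does not use `e`,
since `f` is injective on `0..n`), and `f i'` is joined to `f i` by a walk inside `T` (1), which does
not contain the vertex `f (i+1)`. So `f i` and `f (i+1)` are reachable from each other in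
`H \ fromEdgeSet {e}`, and by
`SimpleGraph.adj_and_reachable_delete_edges_iff_exists_cycle` the edge `e` is on a cycle (a walk with
`IsCycle`); turn this walk into a map `ZMod n → W` (`n` = its length, `t ↦ c.getVert t.val`): so
`f (i+1) ∈ B ⊆ T`, contradiction.
-/

namespace Pool.Agent.H40F

open Pool.Agent.StrongMax

universe u

/-- A cycle in the sense of Mathlib gives elements of `cycV`. -/
theorem mem_cycV_of_isCycle {W : Type u} {H : SimpleGraph W} {v : W} (c : H.Walk v v)
    (hc : c.IsCycle) (x : W) (hx : x ∈ c.support) : x ∈ cycV H := by
  have h3 : 3 ≤ c.length := hc.three_le_length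
  have : NeZero c.length := ⟨by omega⟩
  have h1lt : Fact (1 < c.length) := ⟨by omega⟩
  have hn : c.getVert c.length = v := c.getVert_length
  have h0 : c.getVert 0 = v := c.getVert_zero
  refine ⟨c.length, fun t => c.getVert t.val, h3, ?_, ?_, ?_⟩
  · intro s t hst
    have hs := ZMod.val_lt s
    have ht := ZMod.val_lt t
    have h4 := hc.getVert_injOn' (show s.val ∈ {i | i ≤ c.length - 1} by
      rw [Set.mem_setOf_eq]; omega) (show t.val ∈ {i | i ≤ c.length - 1} by
      rw [Set.mem_setOf_eq]; omega) hst
    exact ZMod.val_injective _ h4
  · intro t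
    have ht := ZMod.val_lt t
    have hadj := c.adj_getVert_succ ht
    by_cases h : t.val + 1 < c.length
    · have h5 : (t + 1).val = t.val + 1 := by
        rw [ZMod.val_add, ZMod.val_one, Nat.mod_eq_of_lt h]
      simp only [h5]
      exact hadj
    · have h6 : t.val + 1 = c.length := by omega
      have h5 : (t + 1).val = 0 := by
        rw [ZMod.val_add, ZMod.val_one, h6, Nat.mod_self]
      simp only [h5]
      rw [h6, hn] at hadj
      rw [h0]
      exact hadj
  · obtain ⟨m, hm, hml⟩ := SimpleGraph.Walk.mem_support_iff_exists_getVert.1 hx
    rcases Nat.lt_or_ge m c.length with h | h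
    · refine ⟨(m : ZMod c.length), ?_⟩
      simp only [ZMod.val_natCast, Nat.mod_eq_of_lt h]
      exact hm
    · refine ⟨0, ?_⟩
      have h7 : m = c.length := by omega
      simp only [ZMod.val_zero]
      rw [h0, ← hm, h7, hn]

theorem b5_walk {W : Type u} {H : SimpleGraph W} {z z' : W} {a b : W} (p : H.Walk a b)
    (hp : z ∉ p.support) : (H.deleteEdges {s(z', z)}).Reachable a b := by
  induction p with
  | nil => exact SimpleGraph.Reachable.refl _
  | @cons a a' b h p ih =>
    rw [SimpleGraph.Walk.support_cons, List.mem_cons, not_or] at hp
    refine SimpleGraph.Reachable.trans (SimpleGraph.Adj.reachable ?_) (ih hp.2)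
    rw [SimpleGraph.deleteEdges_adj]
    refine ⟨h, ?_⟩
    rw [Set.mem_singleton_iff, Sym2.eq_iff]
    rintro (⟨-, h2⟩ | ⟨h1, -⟩)
    · exact hp.2 (h2 ▸ p.start_mem_support)
    · exact hp.1 h1.symm

theorem B5 {W : Type u} {H : SimpleGraph W} (hfin : (cycV H).Finite) :
    (core H ⊤).Finite := by
  classical
  set B : Set W := cycV H with hB
  let S : W → W → Set W := fun x y =>
    if h : H.Reachable x y then {z | z ∈ h.some.support} else ∅
  have hSfin : ∀ x y, (S x y).Finite := by
    intro x y
    simp only [S]
    split_ifs with h
    · exact List.finite_toSet _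
    · exact Set.finite_empty
  set T : Set W := B ∪ ⋃ x ∈ B, ⋃ y ∈ B, S x y with hT
  have hTfin : T.Finite := by
    refine hfin.union ?_
    exact hfin.biUnion fun x _ => hfin.biUnion fun y _ => hSfin x y
  have hBT : B ⊆ T := Set.subset_union_left
  have hST : ∀ x ∈ B, ∀ y ∈ B, S x y ⊆ T := by
    intro x hx y hy z hz
    exact Or.inr (Set.mem_biUnion hx (Set.mem_biUnion hy hz))
  -- (1a) every vertex of `T` is joined inside `T` to a vertex of `B`
  have h1a : ∀ a ∈ T, ∃ x ∈ B, ∃ w : H.Walk x a, ∀ z ∈ w.support, z ∈ T := by
    rintro a (ha | ha)
    · refine ⟨a, ha, SimpleGraph.Walk.nil, fun z hz => ?_⟩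
      rw [SimpleGraph.Walk.support_nil, List.mem_singleton] at hz
      rw [hz]
      exact hBT ha
    · obtain ⟨x, hx, h2⟩ := Set.mem_iUnion₂.1 ha
      obtain ⟨y, hy, h3⟩ := Set.mem_iUnion₂.1 h2
      have hsub := hST x hx y hy
      by_cases h : H.Reachable x y
      · have hS : S x y = {z | z ∈ h.some.support} := by
          simp only [S]
          rw [dif_pos h]
        rw [hS] at h3 hsub
        refine ⟨x, hx, h.some.takeUntil a h3, fun z hz => hsub ?_⟩
        exact SimpleGraph.Walk.support_takeUntil_subset_support _ h3 hz
      · have hS : S x y = ∅ := by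
          simp only [S]
          rw [dif_neg h]
        rw [hS] at h3
        exact absurd h3 (Set.notMem_empty a)
  -- (1)
  have h1 : ∀ a ∈ T, ∀ b ∈ T, H.Reachable a b → ∃ w : H.Walk a b, ∀ z ∈ w.support, z ∈ T := by
    intro a ha b hb hab
    obtain ⟨x, hx, w1, hw1⟩ := h1a a ha
    obtain ⟨y, hy, w2, hw2⟩ := h1a b hb
    have hxy : H.Reachable x y := (w1.reachable.trans hab).trans w2.reachable.symm
    have hsub := hST x hx y hy
    have hS : S x y = {z | z ∈ hxy.some.support} := by
      simp only [S]
      rw [dif_pos hxy]
    rw [hS] at hsub
    refine ⟨(w1.reverse.append hxy.some).append w2, fun z hz => ?_⟩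
    rw [SimpleGraph.Walk.mem_support_append_iff, SimpleGraph.Walk.mem_support_append_iff,
      SimpleGraph.Walk.support_reverse, List.mem_reverse] at hz
    rcases hz with (hz | hz) | hz
    · exact hw1 z hz
    · exact hsub hz
    · exact hw2 z hz
  -- (2)
  refine hTfin.subset ?_
  intro x hx
  have hx' : InCore H ⊤ x := hx
  induction hx' with
  | cyc n f hn hL hf ha i => exact hBT ⟨n, f, hn, hf, ha, i, rfl⟩
  | path n f hL hf ha h0 hn i hi ih0 ihn =>
    have h0T : f 0 ∈ T := ih0 h0
    have hnT : f n ∈ T := ihn hn
    have key : ∀ j, j ≤ n → f j ∈ T := by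
      intro j
      induction j with
      | zero => exact fun _ => h0T
      | succ j ihj =>
        intro hj
        have hjT := ihj (by omega)
        by_contra hcon
        have hjn : j + 1 < n := by
          rcases Nat.lt_or_ge (j + 1) n with h | h
          · exact h
          · have : j + 1 = n := by omega
            rw [this] at hcon
            exact absurd hnT hcon
        -- the path from `f (j+1)` to `f n`
        have hpath : ∀ m, j + 1 ≤ m → m ≤ n →
            (H.deleteEdges {s(f j, f (j + 1))}).Reachable (f (j + 1)) (f m) := by
          intro m hm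
          induction m, hm using Nat.le_induction with
          | base => exact fun _ => SimpleGraph.Reachable.refl _
          | succ m hm ihm =>
            intro hmn
            refine (ihm (by omega)).trans (SimpleGraph.Adj.reachable ?_)
            rw [SimpleGraph.deleteEdges_adj]
            refine ⟨ha m (by omega), ?_⟩
            rw [Set.mem_singleton_iff, Sym2.eq_iff]
            rintro (⟨h2, -⟩ | ⟨-, h2⟩)
            · have := hf m j (by omega) (by omega) h2
              omega
            · have := hf (m + 1) j (by omega) (by omega) h2
              omega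
        -- the walk inside `T`
        have hreachH : ∀ m, j ≤ m → m ≤ n → H.Reachable (f j) (f m) := by
          intro m hm
          induction m, hm using Nat.le_induction with
          | base => exact fun _ => SimpleGraph.Reachable.refl _
          | succ m hm ihm =>
            intro hmn
            exact (ihm (by omega)).trans (ha m (by omega)).reachable
        obtain ⟨w, hw⟩ := h1 (f j) hjT (f n) hnT (hreachH n (by omega) le_rfl)
        have hw' : f (j + 1) ∉ w.support := fun h => hcon (hw _ h)
        have hreach : (H.deleteEdges {s(f j, f (j + 1))}).Reachable (f j) (f (j + 1)) :=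
          (b5_walk (z' := f j) w hw').trans (hpath n (by omega) le_rfl).symm
        obtain ⟨u, c, hc, hce⟩ := SimpleGraph.adj_and_reachable_delete_edges_iff_exists_cycle.1
          ⟨ha j (by omega), hreach⟩
        have h5 : f (j + 1) ∈ c.support := SimpleGraph.Walk.snd_mem_support_of_mem_edges c hce
        exact hcon (hBT (mem_cycV_of_isCycle c hc _ h5))
    exact key i hi

end Pool.Agent.H40F
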