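import Pool.Agent.Lib.H40F.Defs

/-!
# C1. The clique exchange

Host: the complete graph on `V`. All components of `H` are infinite. If `F` is strongly maximal then
only finitely many vertices have `F`-degree at most `D`.

Proof. Otherwise let `A` be a finite set of `2 D + 2` such vertices, `X = {s(v,w) | v, w ∈ A, v ≠ w}`,
`B = {e ∈ F | some vertex of e is in A}`. `X ∩ F ⊆ B`. The set `(F \ B) ∪ X` is `H`-free: let
`f : W → V` be an injective map which sends edges of `H` to this set. If some `f x` is in `A` then
every vertex `y` of the component of `x` is mapped into `A` (the edges of `(F \ B) ∪ X` with a vertex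
in `A` are in `X`; induction along a walk), and this component is infinite but `A` is finite. So no
vertex is mapped into `A`, all edges are mapped to `F \ B ⊆ F`, contradiction to `H`-freeness of `F`
(`hFree_iff`). By `StronglyMaximal.exchange`, `X.encard ≤ B.encard`. But `X` has
`(2 D + 2) (2 D + 1) / 2 = (D + 1) (2 D + 1)` elements (for instance `X` is the image of
`Finset.offDiag A` under the two-to-one map `Sym2.mk`; see `Sym2.card_image_offDiag`), and `B` is the
union over `v ∈ A` of the sets `{s(v,w) | s(v,w) ∈ F}`, so it has at most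
`(2 D + 2) D` elements (every element of `F` is not a loop).
-/

namespace Pool.Agent.H40F

open Pool.Agent.StrongMax

universe u

theorem c1_union {α : Type*} {β : Type*} (A : Finset α) (S : α → Set β) (D : ℕ)
    (h : ∀ a ∈ A, (S a).encard ≤ D) : (⋃ a ∈ A, S a).encard ≤ ((A.card * D : ℕ) : ℕ∞) := by
  classical
  induction A using Finset.induction_on with
  | empty => simp
  | insert a A ha ih =>
    rw [Finset.set_biUnion_insert, Finset.card_insert_of_notMem ha]
    refine (Set.encard_union_le _ _).trans ?_
    have h1 := h a (Finset.mem_insert_self a A)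
    have h2 := ih fun b hb => h b (Finset.mem_insert_of_mem hb)
    refine (add_le_add h1 h2).trans (le_of_eq ?_)
    push_cast
    ring

theorem C1 {W V : Type u} {H : SimpleGraph W}
    (hcomp : ∀ C : H.ConnectedComponent, C.supp.Infinite) {F : Set (Sym2 V)}
    (hF : StronglyMaximal H (⊤ : SimpleGraph V) F) (D : ℕ) :
    {v : V | {w | s(v, w) ∈ F}.encard ≤ (D : ℕ∞)}.Finite := by
  classical
  by_contra hinf
  obtain ⟨A, hAS, hAc⟩ := Set.Infinite.exists_subset_card_eq hinf (2 * D + 2)
  have hX : ∀ v w : V, s(v, w) ∈ A.offDiag.image Sym2.mk.uncurry ↔ v ∈ A ∧ w ∈ A ∧ v ≠ w := by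
    intro v w
    rw [Finset.mem_image]
    constructor
    · rintro ⟨⟨a, b⟩, h1, h2⟩
      rw [Finset.mem_offDiag] at h1
      have h3 : s(a, b) = s(v, w) := h2
      rw [Sym2.eq_iff] at h3
      rcases h3 with ⟨rfl, rfl⟩ | ⟨rfl, rfl⟩
      · exact h1
      · exact ⟨h1.2.1, h1.1, h1.2.2.symm⟩
    · intro h
      exact ⟨(v, w), Finset.mem_offDiag.2 h, rfl⟩
  set X : Finset (Sym2 V) := A.offDiag.image Sym2.mk.uncurry with hXdef
  have hXc : X.card = (D + 1) * (2 * D + 1) := by
    rw [hXdef, Sym2.card_image_offDiag, hAc, Nat.choose_two_right]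
    have h1 : (2 * D + 2) * (2 * D + 2 - 1) = ((D + 1) * (2 * D + 1)) * 2 := by
      have : 2 * D + 2 - 1 = 2 * D + 1 := by omega
      rw [this]
      ring
    rw [h1, Nat.mul_div_cancel _ (by norm_num)]
  set B : Set (Sym2 V) := {e | e ∈ F ∧ ∃ v ∈ A, v ∈ e} with hB
  have hBsub : B ⊆ ⋃ v ∈ A, (fun w => s(v, w)) '' {w | s(v, w) ∈ F} := by
    rintro e ⟨he, v, hv, hve⟩
    obtain ⟨w, rfl⟩ := Sym2.mem_iff_exists.1 hve
    exact Set.mem_biUnion hv ⟨w, he, rfl⟩
  have hBc : B.encard ≤ (((2 * D + 2) * D : ℕ) : ℕ∞) := by
    refine (Set.encard_le_encard hBsub).trans ?_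
    rw [← hAc]
    refine c1_union A _ D fun v hv => ?_
    exact (Set.encard_image_le _ _).trans (hAS hv)
  have hex := hF.exchange (A := (X : Set (Sym2 V))) (B := B) ?_ ?_ ?_
  · rw [Set.encard_coe_eq_coe_finsetCard, hXc] at hex
    have h1 := hex.trans hBc
    have h2 : (D + 1) * (2 * D + 1) ≤ (2 * D + 2) * D := by exact_mod_cast h1
    nlinarith
  · intro e
    induction e using Sym2.ind with
    | _ v w =>
      intro he
      rw [Finset.mem_coe, hX] at he
      exact he.2.2
  · intro e
    induction e using Sym2.ind with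
    | _ v w =>
      rintro ⟨he, heF⟩
      rw [Finset.mem_coe, hX] at he
      exact ⟨heF, v, he.1, Sym2.mem_mk_left v w⟩
  · rw [hFree_iff]
    intro f hf hadj
    -- an edge with a vertex in `A` stays in `A`
    have hstep : ∀ a b, H.Adj a b → f a ∈ A → f b ∈ A := by
      intro a b hab ha
      rcases hadj a b hab with h | h
      · exact absurd ⟨h.1, f a, ha, Sym2.mem_mk_left _ _⟩ h.2
      · rw [Finset.mem_coe, hX] at h
        exact h.2.1
    by_cases hx : ∃ x, f x ∈ A
    · obtain ⟨x, hx⟩ := hx
      have hwalk : ∀ (a b : W) (p : H.Walk a b), f a ∈ A → f b ∈ A := by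
        intro a b p
        induction p with
        | nil => exact id
        | cons h p ih => exact fun ha => ih (hstep _ _ h ha)
      have hsub : (H.connectedComponentMk x).supp ⊆ f ⁻¹' (A : Set V) := by
        intro y hy
        rw [SimpleGraph.ConnectedComponent.mem_supp_iff] at hy
        obtain ⟨p⟩ := (SimpleGraph.ConnectedComponent.exact hy).symm
        exact hwalk x y p hx
      exact hcomp (H.connectedComponentMk x) ((A.finite_toSet.preimage hf.injOn).subset hsub)
    · push Not at hx
      refine hFree_iff.1 hF.2.1 f hf fun a b hab => ?_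
      rcases hadj a b hab with h | h
      · exact h.1
      · rw [Finset.mem_coe, hX] at h
        exact absurd h.1 (hx a)

end Pool.Agent.H40F
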