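import Pool.Agent.Lib.H40F.C7

/-!
# C8. Reduction to a maximal class of components

`C` is a maximal component with an edge. Then `clsV H C` (the union of the components in which `C`
embeds) satisfies the hypotheses of `C7`: closed under adjacency; every vertex `x` has a neighbour
(the component of `x` contains a copy of `C`, so it contains an edge, and it is connected, so if
`x` had no neighbour the component would be `{x}`); if `C' ⊆ clsV` and `D' ⊆ (clsV)ᶜ` and `C'`
embeds in `D'`, then `C` embeds in `C'`, hence in `D'`, so `D'` is in the class, contradiction (supports of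
components are nonempty).
-/

namespace Pool.Agent.H40F

open Pool.Agent.StrongMax

universe u

theorem C8 {W : Type u} {H : SimpleGraph W} (C : H.ConnectedComponent)
    (hedge : ∃ x ∈ C.supp, ∃ y, H.Adj x y)
    (hf : Fails.{u} (H.induce (clsV H C))) : Fails.{u} H := by
  have hmk : ∀ x y, H.Adj x y → H.connectedComponentMk y = H.connectedComponentMk x := by
    intro x y h
    exact SimpleGraph.ConnectedComponent.sound h.symm.reachable
  have hmem : ∀ (D : H.ConnectedComponent) (x : W), x ∈ D.supp → H.connectedComponentMk x = D :=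
    fun _ _ h => h
  refine C7 (clsV H C) ?_ ?_ ?_ ?_ hf
  · intro x hx y hxy
    show H.connectedComponentMk y ∈ cls H C
    rw [hmk x y hxy]
    exact hx
  · intro x hx
    obtain ⟨a, ha, b, hab⟩ := hedge
    have hb : b ∈ C.supp := by
      show H.connectedComponentMk b = C
      rw [hmk a b hab]
      exact ha
    obtain ⟨f, -, hfT, hfa⟩ := hx
    have hadj := hfa ⟨a, ha⟩ ⟨b, hb⟩ hab
    by_cases hxa : x = f ⟨a, ha⟩
    · exact ⟨f ⟨b, hb⟩, by rw [hxa]; exact hadj⟩
    · have h1 : H.connectedComponentMk x = H.connectedComponentMk (f ⟨a, ha⟩) :=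
        (hmem _ _ (hfT ⟨a, ha⟩)).symm
      obtain ⟨p⟩ := SimpleGraph.ConnectedComponent.exact h1
      cases p with
      | nil => exact absurd rfl hxa
      | cons h q => exact ⟨_, h⟩
  · obtain ⟨a, ha, -⟩ := hedge
    refine ⟨a, ?_⟩
    show H.connectedComponentMk a ∈ cls H C
    rw [hmem C a ha]
    exact Emb.refl H C.supp
  · intro C' D' hC' hD' hemb
    obtain ⟨x, hx⟩ := C'.nonempty_supp
    obtain ⟨y, hy⟩ := D'.nonempty_supp
    have h1 : H.connectedComponentMk x ∈ cls H C := hC' hx
    rw [hmem C' x hx] at h1
    have h2 : Emb H C.supp D'.supp := Emb.trans h1 hemb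
    apply hD' hy
    show H.connectedComponentMk y ∈ cls H C
    rw [hmem D' y hy]
    exact h2

end Pool.Agent.H40F
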