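import Pool.Agent.Lib.H40F.Defs
import Pool.Agent.Lib.StrongMax.LF2a

/-!
# C9. Two inessential cases

(a) `C` maximal and its class infinite: `H.induce (clsV H C)` fails.
Proof. `fails_of_inessentialU` for `H' = H.induce (clsV H C)`. Let `s(a, b)` be an edge of `H'` and
`D₀ ∈ cls H C` the component of `a` (and `b`). The set `cls H C` is infinite, so there is an
injective map `σ : cls H C → cls H C` which does not take the value `D₀`
(`Function.Embedding` from an infinite type to the complement of a point; for instance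
`Set.Infinite` sets have `#(s \ {a}) = #s`). For every `D ∈ cls H C`, `D` embeds in `C` (maximality)
and `C` in `σ D`, so choose an embedding `ε_D` of `D` in `σ D`. `f x = ε_D x` for `x ∈ D`. `f` is
injective (different components go to different components), preserves edges and no edge is mapped to
`s(a, b)` since `f` never takes values in `D₀`.
(b) No component with an edge is maximal: `H` fails.
Proof. `fails_of_inessentialU`. Let `s(a, b)` be an edge, `D_0` the component of `a`. By hypothesis
there are `D_1, D_2, …` such that `D_n` embeds in `D_(n+1)` and `D_(n+1)` does not embed in `D_n` (all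
`D_n` have an edge since they contain a copy of `D_0`). For `m < n`, `D_m ≠ D_n`, because otherwise
`D_(m+1)` embeds in `D_n = D_m`. `f` = the embedding `D_n → D_(n+1)` on `D_n`, the identity on all
other components. Injective, preserves edges, never takes values in `D_0`.
-/

namespace Pool.Agent.H40F

open Pool.Agent.StrongMax

universe u

theorem c9_inj {α : Type u} [Infinite α] (a : α) :
    ∃ σ : α → α, Function.Injective σ ∧ ∀ x, σ x ≠ a := by
  classical
  have h1 : Cardinal.mk (↥(({a} : Set α)ᶜ)) = Cardinal.mk α :=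
    Cardinal.mk_compl_of_infinite _ (lt_of_lt_of_le (by
      rw [Cardinal.mk_singleton]
      exact Cardinal.one_lt_aleph0) (Cardinal.aleph0_le_mk α))
  obtain ⟨e⟩ := Cardinal.eq.1 h1.symm
  exact ⟨fun x => (e x).1, fun x y h => e.injective (Subtype.ext h), fun x => (e x).2⟩

theorem C9a {W : Type u} {H : SimpleGraph W} (C : H.ConnectedComponent) (hmax : IsMax H C)
    (hinf : (cls H C).Infinite) : Fails.{u} (H.induce (clsV H C)) := by
  classical
  apply fails_of_inessentialU
  intro a b hab
  have hab' : H.Adj a.1 b.1 := hab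
  have hinf' : Infinite ↥(cls H C) := hinf.to_subtype
  obtain ⟨σ, hσ, hσ0⟩ := c9_inj (⟨H.connectedComponentMk a.1, a.2⟩ : ↥(cls H C))
  have h1 : ∀ D : ↥(cls H C), Emb H D.1.supp (σ D).1.supp := fun D =>
    (hmax D.1 D.2).trans (σ D).2
  choose ε hε1 hε2 hε3 using h1
  let f : ↥(clsV H C) → ↥(clsV H C) := fun x =>
    ⟨ε ⟨H.connectedComponentMk x.1, x.2⟩ ⟨x.1, rfl⟩, by
      have h2 := hε2 ⟨H.connectedComponentMk x.1, x.2⟩ ⟨x.1, rfl⟩
      show H.connectedComponentMk _ ∈ cls H C
      have h3 : H.connectedComponentMk (ε ⟨H.connectedComponentMk x.1, x.2⟩ ⟨x.1, rfl⟩) =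
        (σ ⟨H.connectedComponentMk x.1, x.2⟩).1 := h2
      rw [h3]
      exact (σ _).2⟩
  have hf0 : ∀ (x : ↥(clsV H C)) (D : H.ConnectedComponent) (hD : D ∈ cls H C)
      (h : H.connectedComponentMk x.1 = D), (f x).1 = ε ⟨D, hD⟩ ⟨x.1, h⟩ := by
    intro x D hD h
    subst h
    rfl
  have hf : ∀ (x : ↥(clsV H C)) (D : ↥(cls H C)) (h : H.connectedComponentMk x.1 = D.1),
      (f x).1 = ε D ⟨x.1, h⟩ := fun x D h => hf0 x D.1 D.2 h
  have hfc : ∀ x : ↥(clsV H C), H.connectedComponentMk (f x).1 =
      (σ ⟨H.connectedComponentMk x.1, x.2⟩).1 := by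
    intro x
    exact hε2 ⟨H.connectedComponentMk x.1, x.2⟩ ⟨x.1, rfl⟩
  refine ⟨f, ?_, ?_⟩
  · intro x y hxy
    have h2 : (σ ⟨H.connectedComponentMk x.1, x.2⟩).1 = (σ ⟨H.connectedComponentMk y.1, y.2⟩).1 := by
      rw [← hfc, ← hfc, hxy]
    have h3 := hσ (Subtype.ext h2)
    have h4 : H.connectedComponentMk x.1 = H.connectedComponentMk y.1 := congrArg Subtype.val h3
    have h5 := hf x ⟨H.connectedComponentMk y.1, y.2⟩ h4
    have h6 := hf y ⟨H.connectedComponentMk y.1, y.2⟩ rfl
    rw [hxy, h6] at h5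
    have h7 := hε1 _ h5
    exact Subtype.ext (congrArg Subtype.val h7).symm
  · intro x y hxy
    have hxy' : H.Adj x.1 y.1 := hxy
    have h4 : H.connectedComponentMk x.1 = H.connectedComponentMk y.1 :=
      SimpleGraph.ConnectedComponent.eq.2 hxy'.reachable
    constructor
    · show H.Adj (f x).1 (f y).1
      rw [hf x ⟨H.connectedComponentMk y.1, y.2⟩ h4, hf y ⟨H.connectedComponentMk y.1, y.2⟩ rfl]
      exact hε3 _ _ _ hxy'
    · intro h
      have h5 : f x = a ∨ f x = b := by
        have : f x ∈ s(a, b) := by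
          rw [← h]
          exact Sym2.mem_mk_left _ _
        exact Sym2.mem_iff.1 this
      have h6 : H.connectedComponentMk (f x).1 = H.connectedComponentMk a.1 := by
        rcases h5 with h5 | h5
        · rw [h5]
        · rw [h5]
          exact SimpleGraph.ConnectedComponent.eq.2 hab'.reachable.symm
      rw [hfc] at h6
      exact hσ0 _ (Subtype.ext h6)

theorem C9b {W : Type u} {H : SimpleGraph W}
    (hno : ∀ C : H.ConnectedComponent, (∃ x ∈ C.supp, ∃ y, H.Adj x y) → ¬ IsMax H C) :
    Fails.{u} H := by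
  classical
  apply fails_of_inessentialU
  intro a b hab
  have hnext : ∀ C : {C : H.ConnectedComponent // ∃ x ∈ C.supp, ∃ y, H.Adj x y},
      ∃ D : {C : H.ConnectedComponent // ∃ x ∈ C.supp, ∃ y, H.Adj x y},
        Emb H C.1.supp D.1.supp ∧ ¬ Emb H D.1.supp C.1.supp := by
    rintro ⟨C, hC⟩
    have h1 := hno C hC
    unfold IsMax at h1
    push Not at h1
    obtain ⟨D, h2, h3⟩ := h1
    obtain ⟨x, hx, y, hxy⟩ := hC
    have hy : y ∈ C.supp := by
      have h4 : H.connectedComponentMk x = C := hx
      show H.connectedComponentMk y = C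
      rw [← h4]
      exact SimpleGraph.ConnectedComponent.eq.2 hxy.reachable.symm
    obtain ⟨f, hf1, hf2, hf3⟩ := h2
    exact ⟨⟨D, f ⟨x, hx⟩, hf2 _, f ⟨y, hy⟩, hf3 _ _ hxy⟩, ⟨f, hf1, hf2, hf3⟩, h3⟩
  choose nx hnx1 hnx2 using hnext
  obtain ⟨D, hD0, hDs⟩ : ∃ D : ℕ → {C : H.ConnectedComponent // ∃ x ∈ C.supp, ∃ y, H.Adj x y},
      D 0 = ⟨H.connectedComponentMk a, a, rfl, b, hab⟩ ∧ ∀ n, D (n + 1) = nx (D n) :=
    ⟨fun n => Nat.rec ⟨H.connectedComponentMk a, a, rfl, b, hab⟩ (fun _ c => nx c) n, rfl,
      fun _ => rfl⟩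
  have hemb : ∀ m n, m ≤ n → Emb H (D m).1.supp (D n).1.supp := by
    intro m n hmn
    induction n, hmn using Nat.le_induction with
    | base => exact Emb.refl _ _
    | succ k _ ih =>
      rw [hDs]
      exact ih.trans (hnx1 _)
  have hlt : ∀ m n, m < n → (D m).1 ≠ (D n).1 := by
    intro m n hmn h
    have h1 := hemb (m + 1) n hmn
    rw [← h] at h1
    have h2 := hnx2 (D m)
    rw [← hDs] at h2
    exact h2 h1
  have hinj : ∀ m n, (D m).1 = (D n).1 → m = n := by
    intro m n h
    rcases lt_trichotomy m n with h1 | h1 | h1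
    · exact absurd h (hlt m n h1)
    · exact h1
    · exact absurd h.symm (hlt n m h1)
  have h1 : ∀ n, Emb H (D n).1.supp (D (n + 1)).1.supp := fun n => hemb n (n + 1) (Nat.le_succ n)
  choose ε hε1 hε2 hε3 using h1
  let f : W → W := fun x =>
    if h : ∃ n, H.connectedComponentMk x = (D n).1 then ε h.choose ⟨x, h.choose_spec⟩ else x
  have hf1 : ∀ x n (h : H.connectedComponentMk x = (D n).1), f x = ε n ⟨x, h⟩ := by
    intro x n h
    have h2 : ∃ n, H.connectedComponentMk x = (D n).1 := ⟨n, h⟩
    have h3 : f x = ε h2.choose ⟨x, h2.choose_spec⟩ := dif_pos h2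
    have h4 : h2.choose = n := hinj _ _ (h2.choose_spec.symm.trans h)
    rw [h3]
    have h5 : ∀ m (hm : H.connectedComponentMk x = (D m).1), m = n → ε m ⟨x, hm⟩ = ε n ⟨x, h⟩ := by
      intro m hm hmn
      subst hmn
      rfl
    exact h5 _ _ h4
  have hf2 : ∀ x, (¬ ∃ n, H.connectedComponentMk x = (D n).1) → f x = x := fun x h => dif_neg h
  have hf3 : ∀ x n, H.connectedComponentMk x = (D n).1 →
      H.connectedComponentMk (f x) = (D (n + 1)).1 := by
    intro x n h
    rw [hf1 x n h]
    exact hε2 n ⟨x, h⟩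
  refine ⟨f, ?_, ?_⟩
  · intro x y hxy
    by_cases hx : ∃ n, H.connectedComponentMk x = (D n).1
    · obtain ⟨m, hm⟩ := hx
      by_cases hy : ∃ n, H.connectedComponentMk y = (D n).1
      · obtain ⟨n, hn⟩ := hy
        have h2 := hf3 x m hm
        rw [hxy, hf3 y n hn] at h2
        have h3 : n = m := by
          have := hinj _ _ h2
          omega
        subst h3
        rw [hf1 x n hm, hf1 y n hn] at hxy
        exact congrArg Subtype.val (hε1 n hxy)
      · exfalso
        apply hy
        have h2 := hf3 x m hm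
        rw [hxy, hf2 y hy] at h2
        exact ⟨_, h2⟩
    · by_cases hy : ∃ n, H.connectedComponentMk y = (D n).1
      · exfalso
        apply hx
        obtain ⟨n, hn⟩ := hy
        have h2 := hf3 y n hn
        rw [← hxy, hf2 x hx] at h2
        exact ⟨_, h2⟩
      · rw [hf2 x hx, hf2 y hy] at hxy
        exact hxy
  · intro x y hxy
    have h4 : H.connectedComponentMk x = H.connectedComponentMk y :=
      SimpleGraph.ConnectedComponent.eq.2 hxy.reachable
    constructor
    · by_cases hx : ∃ n, H.connectedComponentMk x = (D n).1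
      · obtain ⟨n, hn⟩ := hx
        rw [hf1 x n hn, hf1 y n (h4 ▸ hn)]
        exact hε3 n _ _ hxy
      · rw [hf2 x hx, hf2 y (h4 ▸ hx)]
        exact hxy
    · intro h
      have h5 : f x = a ∨ f x = b := by
        have : f x ∈ s(a, b) := by
          rw [← h]
          exact Sym2.mem_mk_left _ _
        exact Sym2.mem_iff.1 this
      have h6 : H.connectedComponentMk (f x) = (D 0).1 := by
        rw [hD0]
        rcases h5 with h5 | h5
        · rw [h5]
        · rw [h5]
          exact SimpleGraph.ConnectedComponent.eq.2 hab.reachable.symm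
      by_cases hx : ∃ n, H.connectedComponentMk x = (D n).1
      · obtain ⟨n, hn⟩ := hx
        rw [hf3 x n hn] at h6
        have := hinj _ _ h6
        omega
      · rw [hf2 x hx] at h6
        exact hx ⟨0, h6⟩

end Pool.Agent.H40F
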