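import Pool.Agent.Lib.H40F.C6
import Pool.Agent.Lib.H40F.C8
import Pool.Agent.Lib.H40F.C9

/-!
# C10. A maximal infinite component (countable, acyclic)

`H` acyclic, `C` a maximal component which is infinite and countable: `H` fails.

Proof. `C8` (an infinite component has an edge). If the class is infinite use `C9a`. If the class is
finite, `clsV H C` is a finite union of supports of components which embed in `C` (maximality), so it is
countable. `H' = H.induce (clsV H C)` is acyclic (`SimpleGraph.IsAcyclic.induce` or `comap`). Its
components are infinite: let `x ∈ clsV H C`, `D` its component in `H` (infinite, since the infinite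
`C` embeds in `D`); every `y ∈ D` is reachable from `x` in `H'` since `clsV H C` is closed under
adjacency in `H` (induction along a walk). Apply `C6` to `H'`.
-/

namespace Pool.Agent.H40F

open Pool.Agent.StrongMax

universe u

theorem c10_reach {W : Type u} {H : SimpleGraph W} {C : H.ConnectedComponent} {x y : W} (p : H.Walk x y) :
    ∀ hx : x ∈ clsV H C, ∃ hy : y ∈ clsV H C, (H.induce (clsV H C)).Reachable ⟨x, hx⟩ ⟨y, hy⟩ := by
  induction p with
  | nil => exact fun hx => ⟨hx, SimpleGraph.Reachable.refl _⟩
  | @cons u v w h p ih =>
    intro hx
    have hv : v ∈ clsV H C := by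
      have h1 : H.connectedComponentMk v = H.connectedComponentMk u :=
        SimpleGraph.ConnectedComponent.sound h.symm.reachable
      have h2 : H.connectedComponentMk u ∈ cls H C := hx
      show H.connectedComponentMk v ∈ cls H C
      rw [h1]
      exact h2
    obtain ⟨hy, hr⟩ := ih hv
    have h3 : (H.induce (clsV H C)).Adj ⟨u, hx⟩ ⟨v, hv⟩ := h
    exact ⟨hy, h3.reachable.trans hr⟩

theorem C10 {W : Type u} {H : SimpleGraph W} (hac : H.IsAcyclic) (C : H.ConnectedComponent)
    (hmax : IsMax H C) (hinf : C.supp.Infinite) (hcnt : C.supp.Countable) : Fails.{u} H := by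
  classical
  have hedge : ∃ x ∈ C.supp, ∃ y, H.Adj x y := by
    obtain ⟨x, hx, y, hy, hxy⟩ := hinf.nontrivial
    have hr : H.Reachable x y := SimpleGraph.ConnectedComponent.exact (hx.trans hy.symm)
    obtain ⟨p⟩ := hr
    cases p with
    | nil => exact absurd rfl hxy
    | cons h p => exact ⟨x, hx, _, h⟩
  refine C8 C hedge ?_
  by_cases hf : (cls H C).Infinite
  · exact C9a C hmax hf
  · have hfin : (cls H C).Finite := Set.not_infinite.1 hf
    have hsupp : ∀ D ∈ cls H C, D.supp.Countable := by
      intro D hD
      obtain ⟨f, hinj, hmem, _⟩ := hmax D hD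
      have h1 : Countable C.supp := hcnt.to_subtype
      have h2 : Function.Injective (fun a : D.supp => (⟨f a, hmem a⟩ : C.supp)) := by
        intro a b hab
        exact hinj (congrArg Subtype.val hab)
      exact Set.countable_coe_iff.1 h2.countable
    have hcl : (clsV H C).Countable := by
      have h1 : clsV H C = ⋃ D ∈ cls H C, D.supp := by
        ext x
        simp only [Set.mem_iUnion, exists_prop]
        constructor
        · intro hx
          exact ⟨H.connectedComponentMk x, hx, rfl⟩
        · rintro ⟨D, hD, hx⟩
          have h2 : H.connectedComponentMk x = D := hx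
          show H.connectedComponentMk x ∈ cls H C
          rw [h2]
          exact hD
      rw [h1]
      exact hfin.countable.biUnion hsupp
    have hc : Countable (clsV H C) := hcl.to_subtype
    refine C6 (hac.induce _) ?_
    intro C'
    induction C' using SimpleGraph.ConnectedComponent.ind with
    | _ x =>
      have hx : H.connectedComponentMk x.1 ∈ cls H C := x.2
      obtain ⟨f, hinj, hmem, _⟩ : Emb H C.supp (H.connectedComponentMk x.1).supp := hx
      have hCi : Infinite C.supp := hinf.to_subtype
      have hreach : ∀ a : C.supp, ∃ hy : f a ∈ clsV H C, (H.induce (clsV H C)).Reachable x ⟨f a, hy⟩ := by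
        intro a
        have h1 : H.Reachable x.1 (f a) := (SimpleGraph.ConnectedComponent.exact (hmem a)).symm
        obtain ⟨p⟩ := h1
        exact c10_reach p x.2
      have hinj2 : Function.Injective (fun a : C.supp => (⟨f a, (hreach a).1⟩ : clsV H C)) := by
        intro a b hab
        exact hinj (congrArg Subtype.val hab)
      refine (Set.infinite_range_of_injective hinj2).mono ?_
      rintro _ ⟨a, rfl⟩
      exact SimpleGraph.ConnectedComponent.sound (hreach a).2.symm

end Pool.Agent.H40F
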