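import Pool.Agent.Lib.H40F.C8
import Pool.Agent.Lib.H40F.C9

/-!
# C11. A maximal finite component

`H` has infinitely many edges and a maximal component `C` which is finite and has an edge: `H` fails.

Proof. If the class is infinite: `C9a` and `C8`. If the class is finite then `clsV H C` is finite (its
components embed in `C`) and `H' = H.induce (clsV H C)` has finitely many edges. If there is no vertex
`z` of `H'` common to all its edges then `H'` fails by `fails_of_finEdges`, so `H` fails by `C8`.
Otherwise `C` (whose support is contained in `clsV H C`, `C` embeds in itself) is a star: all edges of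
`H` inside `C` contain `z`, `z ∈ C` (`C` has an edge). We show that `H` is locally finite and use
`fails_of_locFin`: let `x` be a vertex. If `x ∈ clsV H C`, its neighbours are in the finite set
`clsV H C`. Otherwise suppose that the neighbour set of `x` is infinite. Then `C` embeds in the
component `D` of `x`: choose an injection `j` of the finite set `C.supp \ {z}` into the neighbour set
of `x`, `f z = x`, `f y = j y`; all edges of `C` contain `z`, so they are mapped to edges. So
`D ∈ cls H C` and `x ∈ clsV H C`, contradiction.
-/

namespace Pool.Agent.H40F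

open Pool.Agent.StrongMax

universe u

theorem C11 {W : Type u} {H : SimpleGraph W} (hinfE : ¬ H.edgeSet.Finite)
    (C : H.ConnectedComponent) (hedge : ∃ x ∈ C.supp, ∃ y, H.Adj x y)
    (hmax : IsMax H C) (hfin : C.supp.Finite) : Fails.{u} H := by
  classical
  by_cases hinf : (cls H C).Infinite
  · exact C8 C hedge (C9a C hmax hinf)
  have hcfin : (cls H C).Finite := Set.not_infinite.1 hinf
  have hvfin : (clsV H C).Finite := by
    have h1 : clsV H C ⊆ ⋃ D ∈ cls H C, D.supp := by
      intro x hx
      rw [Set.mem_iUnion₂]
      exact ⟨H.connectedComponentMk x, hx, rfl⟩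
    refine (Set.Finite.biUnion hcfin (fun D hD => ?_)).subset h1
    obtain ⟨f, hf1, hf2, -⟩ := hmax D hD
    have h2 : Finite ↥(C.supp) := hfin.to_subtype
    have h3 : Finite ↥(D.supp) :=
      Finite.of_injective (fun x : ↥(D.supp) => (⟨f x, hf2 x⟩ : ↥(C.supp)))
        (fun a b h => hf1 (congrArg Subtype.val h))
    exact Set.toFinite _
  have hvf : Finite ↥(clsV H C) := hvfin.to_subtype
  by_cases hst : ∃ z, ∀ a b : ↥(clsV H C), (H.induce (clsV H C)).Adj a b → a = z ∨ b = z
  swap
  · exact C8 C hedge (fails_of_finEdges (Set.toFinite _) hst)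
  obtain ⟨z, hz⟩ := hst
  have hCv : ∀ x ∈ C.supp, x ∈ clsV H C := by
    intro x hx
    have h1 : H.connectedComponentMk x = C := hx
    show H.connectedComponentMk x ∈ cls H C
    rw [h1]
    exact Emb.refl H C.supp
  apply fails_of_locFin _ hinfE
  intro x
  by_cases hx : x ∈ clsV H C
  · refine hvfin.subset (fun y hy => ?_)
    have h1 : H.Adj x y := hy
    show H.connectedComponentMk y ∈ cls H C
    rw [← SimpleGraph.ConnectedComponent.eq.2 h1.reachable]
    exact hx
  · by_contra hni
    apply hx
    have h2 : Infinite ↥(H.neighborSet x) := Set.Infinite.to_subtype hni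
    have h3 : Finite ↥(C.supp) := hfin.to_subtype
    have h4 : Cardinal.mk ↥(C.supp) ≤ Cardinal.mk ↥(H.neighborSet x) :=
      (Cardinal.lt_aleph0_of_finite _).le.trans (Cardinal.aleph0_le_mk _)
    obtain ⟨j⟩ := Cardinal.le_def _ _ |>.1 h4
    show Emb H C.supp (H.connectedComponentMk x).supp
    have h5 : ∀ y : ↥(C.supp), H.Adj x (j y).1 := fun y => (j y).2
    refine ⟨fun y => if y.1 = z.1 then x else (j y).1, ?_, ?_, ?_⟩
    · intro a b hab
      dsimp only at hab
      split_ifs at hab with ha hb hb
      · exact Subtype.ext (ha.trans hb.symm)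
      · exact absurd hab (h5 b).ne
      · exact absurd hab.symm (h5 a).ne
      · exact j.injective (Subtype.ext hab)
    · intro a
      dsimp only
      split_ifs with ha
      · rfl
      · exact SimpleGraph.ConnectedComponent.eq.2 (h5 a).reachable.symm
    · intro a b hab
      have h6 : a.1 = z.1 ∨ b.1 = z.1 := by
        rcases hz ⟨a.1, hCv a.1 a.2⟩ ⟨b.1, hCv b.1 b.2⟩ hab with h | h
        · exact Or.inl (congrArg Subtype.val h)
        · exact Or.inr (congrArg Subtype.val h)
      dsimp only
      rcases h6 with h6 | h6
      · rw [if_pos h6, if_neg (fun h => hab.ne (h6.trans h.symm))]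
        exact h5 b
      · rw [if_pos h6, if_neg (fun h => hab.ne (h.trans h6.symm))]
        exact (h5 a).symm

end Pool.Agent.H40F
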