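import Pool.Agent.Lib.H40F.Defs
import Mathlib.SetTheory.Ordinal.FixedPointApproximants

/-!
# C2. The rank of a least fixed point

Proof. Use `OrdinalApprox.lfpApprox Φ ⊥ α` (`= ⋃ β < α, Φ (lfpApprox Φ ⊥ β)` for sets). By
`OrdinalApprox.lfp_mem_range_lfpApprox` some `lfpApprox Φ ⊥ α₀` is the least fixed point, i.e.
everything. Put `rank v = sInf {α | v ∈ Φ (lfpApprox Φ ⊥ α)}` (nonempty: it contains `α₀`, since
`Φ` of everything is everything). For `α = rank v` the set `lfpApprox Φ ⊥ α` is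
`{w | rank w < α}`: if `w ∈ Φ (lfpApprox Φ ⊥ β)`, `β < α`, then `rank w ≤ β < α`; conversely take
`β = rank w`. So `v ∈ Φ {w | rank w < rank v}`.
-/

namespace Pool.Agent.H40F

universe u

theorem c2_mem {V : Type u} (Φ : Set V →o Set V) (α : Ordinal.{u}) (w : V) :
    w ∈ OrdinalApprox.lfpApprox Φ ⊥ α ↔ ∃ β < α, w ∈ Φ (OrdinalApprox.lfpApprox Φ ⊥ β) := by
  rw [OrdinalApprox.lfpApprox]
  simp

theorem C2 {V : Type u} (Φ : Set V →o Set V) (h : OrderHom.lfp Φ = Set.univ) :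
    ∃ rank : V → Ordinal.{u}, ∀ v, v ∈ Φ {w | rank w < rank v} := by
  obtain ⟨α₀, h0⟩ := OrdinalApprox.lfp_mem_range_lfpApprox Φ
  have hne : ∀ v : V, {α : Ordinal.{u} | v ∈ Φ (OrdinalApprox.lfpApprox Φ ⊥ α)}.Nonempty := by
    intro v
    refine ⟨α₀, ?_⟩
    show v ∈ Φ (OrdinalApprox.lfpApprox Φ ⊥ α₀)
    rw [h0, Φ.map_lfp, h]
    exact Set.mem_univ v
  refine ⟨fun v => sInf {α : Ordinal.{u} | v ∈ Φ (OrdinalApprox.lfpApprox Φ ⊥ α)}, fun v => ?_⟩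
  have h1 : v ∈ Φ (OrdinalApprox.lfpApprox Φ ⊥ (sInf {α : Ordinal.{u} | v ∈ Φ (OrdinalApprox.lfpApprox Φ ⊥ α)})) :=
    csInf_mem (hne v)
  refine Φ.monotone ?_ h1
  intro w hw
  obtain ⟨β, hβ, hw'⟩ := (c2_mem Φ _ w).1 hw
  have h2 : sInf {α : Ordinal.{u} | w ∈ Φ (OrdinalApprox.lfpApprox Φ ⊥ α)} ≤ β := csInf_le' hw'
  exact lt_of_le_of_lt h2 hβ

end Pool.Agent.H40F
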