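import Pool.Agent.Lib.H40F.C2

/-!
# C3. Peeling

A graph with uncountably many vertices, only countably many of which have finite degree, has a
nonempty set `S` of vertices such that every vertex of `S` has infinitely many neighbours in `S`.

Proof. `Φ R = {v | {w | G.Adj v w ∧ w ∉ R}.Finite}` is monotone. Let `R` be its least fixed point.
If `R ≠ univ` then `S = Rᶜ` works (`v ∉ R = Φ R`). Otherwise `C2` gives `rank` such that for every `v`
the set `U v = {w | G.Adj v w ∧ ¬ rank w < rank v}` is finite. Let `M₀` be the set of the vertices of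
finite degree, `M_(n+1) = M_n ∪ ⋃ v ∈ M_n, U v`, `M = ⋃ n, M_n`: a countable set. So some vertex is
not in `M`; let `v` be one of least rank (well-foundedness of the ordinals). Let `w` be a neighbour of
`v`. If `rank w < rank v` then `w ∈ M`, and `v ∈ U w` (`G.Adj w v` and not `rank v < rank w`), so
`v ∈ M`, contradiction. So all neighbours of `v` are in the finite set `U v`: `v ∈ M₀ ⊆ M`,
contradiction.
-/

namespace Pool.Agent.H40F

universe u

theorem C3 {V : Type u} (G : SimpleGraph V) (hV : ¬ (Set.univ : Set V).Countable)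
    (hfin : {v | (G.neighborSet v).Finite}.Countable) :
    ∃ S : Set V, S.Nonempty ∧ ∀ v ∈ S, {w | w ∈ S ∧ G.Adj v w}.Infinite := by
  let Φ : Set V →o Set V := ⟨fun R => {v | {w | G.Adj v w ∧ w ∉ R}.Finite}, fun R R' h v hv =>
    Set.Finite.subset (show {w | G.Adj v w ∧ w ∉ R}.Finite from hv) fun w hw => ⟨hw.1, fun h' => hw.2 (h h')⟩⟩
  by_cases hu : OrderHom.lfp Φ = Set.univ
  · exfalso
    obtain ⟨rank, hr⟩ := C2 Φ hu
    have hU : ∀ v, {w | G.Adj v w ∧ ¬ rank w < rank v}.Finite := fun v => hr v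
    let M : ℕ → Set V := fun k => Nat.rec {v | (G.neighborSet v).Finite}
      (fun _ s => s ∪ ⋃ v ∈ s, {w | G.Adj v w ∧ ¬ rank w < rank v}) k
    have hM0 : M 0 = {v | (G.neighborSet v).Finite} := rfl
    have hMs : ∀ k, M (k + 1) = M k ∪ ⋃ v ∈ M k, {w | G.Adj v w ∧ ¬ rank w < rank v} := fun k => rfl
    have hc : ∀ k, (M k).Countable := by
      intro k
      induction k with
      | zero => exact hfin
      | succ k ih =>
        rw [hMs]
        exact ih.union (ih.biUnion fun v _ => (hU v).countable)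
    have hMc : (⋃ k, M k).Countable := Set.countable_iUnion hc
    have hne : ((⋃ k, M k)ᶜ).Nonempty := by
      rw [Set.nonempty_compl]
      intro h
      rw [h] at hMc
      exact hV hMc
    obtain ⟨v, hv, hmin⟩ := (InvImage.wf rank Ordinal.lt_wf).has_min _ hne
    have h1 : G.neighborSet v ⊆ {w | G.Adj v w ∧ ¬ rank w < rank v} := by
      intro w hw
      refine ⟨hw, fun hlt => ?_⟩
      have hwM : w ∈ ⋃ k, M k := by
        by_contra h'
        exact hmin w h' hlt
      obtain ⟨k, hk⟩ := Set.mem_iUnion.1 hwM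
      refine hv (Set.mem_iUnion.2 ⟨k + 1, ?_⟩)
      rw [hMs]
      refine Or.inr (Set.mem_iUnion₂.2 ⟨w, hk, ?_⟩)
      exact ⟨G.adj_symm hw, not_lt.2 hlt.le⟩
    refine hv (Set.mem_iUnion.2 ⟨0, ?_⟩)
    rw [hM0]
    exact (hU v).subset h1
  · refine ⟨(OrderHom.lfp Φ)ᶜ, ?_, ?_⟩
    · rw [Set.nonempty_compl]
      exact hu
    · intro v hv hf
      refine hv ?_
      rw [← Φ.map_lfp]
      show {w | G.Adj v w ∧ w ∉ OrderHom.lfp Φ}.Finite
      exact hf.subset fun w hw => ⟨hw.2, hw.1⟩

end Pool.Agent.H40F
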