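import Pool.Agent.Lib.H40F.Defs

/-!
# C4. The tree of finite sequences embeds greedily

Proof. `x₀ ∈ S`. Construct an injective sequence `s : ℕ → V` with values in `S`, `s 0 = x₀` and
`s (n + 1)` adjacent to `s (Nat.unpair n).2` (note `(Nat.unpair n).2 ≤ n`): given `s 0, …, s n` choose
`s (n + 1)` in the infinite set `{w | w ∈ S ∧ G.Adj (s (Nat.unpair n).2) w}` outside the finite set
`{s 0, …, s n}`. (One way: build by recursion on `n` functions `s_n : ℕ → V` such that the values
`s_n 0, …, s_n n` are distinct elements of `S` with the adjacency property and `s_(n+1)` agrees with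
`s_n` on `0..n`; then `s n = s_n n`.) Put `g l = s (Encodable.encode l)`: by
`Encodable.encode_list_cons`, `encode (a :: l) = succ (pair (encode a) (encode l))` and
`encode a = a`, so `(unpair (encode (a :: l) - 1)).2 = encode l`. `g` is injective because `encode` and
`s` are.
-/

namespace Pool.Agent.H40F

universe u

theorem c4_rec {V : Type u} (F : (n : ℕ) → ((m : ℕ) → m < n → V) → V) :
    ∃ s : ℕ → V, ∀ n, s n = F n (fun m _ => s m) :=
  ⟨Nat.lt_wfRel.wf.fix F, fun n => WellFounded.fix_eq _ F n⟩

theorem C4 {V : Type u} (G : SimpleGraph V) (S : Set V) (hne : S.Nonempty)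
    (hS : ∀ v ∈ S, {w | w ∈ S ∧ G.Adj v w}.Infinite) :
    ∃ g : List ℕ → V, Function.Injective g ∧ ∀ a l, G.Adj (g l) (g (a :: l)) := by
  classical
  obtain ⟨x0, hx0⟩ := hne
  obtain ⟨s, hs⟩ := c4_rec (fun n (prev : (m : ℕ) → m < n → V) =>
    if h : ∃ w, w ∈ S ∧ (∀ h0 : (Nat.unpair (n - 1)).2 < n, G.Adj (prev _ h0) w) ∧
      ∀ m, ∀ hm : m < n, w ≠ prev m hm then h.choose else x0)
  have key : ∀ n, s n ∈ S ∧ ((Nat.unpair (n - 1)).2 < n → G.Adj (s (Nat.unpair (n - 1)).2) (s n)) ∧
      ∀ m, m < n → s n ≠ s m := by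
    intro n
    induction n using Nat.strong_induction_on with
    | _ n ih =>
      have hex : ∃ w, w ∈ S ∧ (∀ h0 : (Nat.unpair (n - 1)).2 < n,
          G.Adj ((fun m (_ : m < n) => s m) _ h0) w) ∧
          ∀ m, ∀ hm : m < n, w ≠ (fun m (_ : m < n) => s m) m hm := by
        by_cases h0 : (Nat.unpair (n - 1)).2 < n
        · obtain ⟨w, hw, hw'⟩ := (hS _ (ih _ h0).1).exists_notMem_finset
            ((Finset.range n).image s)
          refine ⟨w, hw.1, fun _ => hw.2, fun m hm h => hw' ?_⟩
          rw [Finset.mem_image]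
          exact ⟨m, Finset.mem_range.2 hm, h.symm⟩
        · refine ⟨x0, hx0, fun h => absurd h h0, fun m hm => ?_⟩
          exfalso
          apply h0
          have := Nat.unpair_right_le (n - 1)
          omega
      have e := hs n
      rw [dif_pos hex] at e
      rw [e]
      exact hex.choose_spec
  have hinj : Function.Injective s := by
    intro a b hab
    rcases lt_trichotomy a b with h | h | h
    · exact absurd hab.symm ((key b).2.2 a h)
    · exact h
    · exact absurd hab ((key a).2.2 b h)
  refine ⟨fun l => s (Encodable.encode l), fun a b h => Encodable.encode_injective (hinj h), ?_⟩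
  intro a l
  have h1 := (key (Encodable.encode (a :: l))).2.1
  have h2 : (Nat.unpair (Encodable.encode (a :: l) - 1)).2 = Encodable.encode l := by
    rw [Encodable.encode_list_cons, Nat.succ_sub_one, Nat.unpair_pair]
  rw [h2] at h1
  apply h1
  rw [Encodable.encode_list_cons]
  exact Nat.lt_succ_of_le (Nat.right_le_pair _ _)

end Pool.Agent.H40F
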