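import Pool.Agent.Lib.H40F.Defs

/-!
# C5. Every countable forest embeds in the tree of finite sequences

Proof. Let `e : W → ℕ` be injective. For every vertex `x` let `r x = Quot.out` of its component (so
`r x` is reachable from `x` and `r x = r y` for adjacent `x, y`) and let `P x` be the path from `r x`
to `x` (unique: `SimpleGraph.IsAcyclic.path_unique`). `f x = ((P x).support.map e).reverse`; its
first element is `e x`, so `f` is injective. Let `x ~ y`. If `y` is not on `P x` then `P x` followed
by the edge `x y` is a path (`Walk.IsPath.concat` or `Walk.concat_isPath_iff`), so it is `P y` and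
`f y = e y :: f x`. If `y` is on `P x`: `(P x).takeUntil y` is the path `P y` and `(P x).dropUntil y`
is a path from `y` to `x`, so by uniqueness it is the single edge; hence `P x` is `P y` followed by
the edge `y x` and `f x = e x :: f y`. (To avoid transport between different roots `r x`, `r y` one
may fix a root `r` and treat the component of `r`, or argue with supports only.)
-/

namespace Pool.Agent.H40F

universe u

theorem c5_step {W : Type u} {H : SimpleGraph W} (hac : H.IsAcyclic) {r r' x y : W} (hr : r' = r)
    (p : H.Walk r x) (hp : p.IsPath) (q : H.Walk r' y) (hq : q.IsPath) (hxy : H.Adj x y) :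
    q.support = p.support ++ [y] ∨ p.support = q.support ++ [x] := by
  classical
  subst hr
  have huniq : ∀ (a b : W) (s t : H.Walk a b), s.IsPath → t.IsPath → s = t := by
    intro a b s t hs ht
    have := (hac.subsingleton_path a b).elim ⟨s, hs⟩ ⟨t, ht⟩
    exact congrArg Subtype.val this
  by_cases hy : y ∈ p.support
  · right
    have h1 : p.takeUntil y hy = q := huniq _ _ _ _ (hp.takeUntil hy) hq
    have h2 : p.dropUntil y hy = SimpleGraph.Walk.cons hxy.symm SimpleGraph.Walk.nil := by
      refine huniq _ _ _ _ (hp.dropUntil hy) ?_
      rw [SimpleGraph.Walk.cons_isPath_iff]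
      refine ⟨SimpleGraph.Walk.IsPath.nil, ?_⟩
      rw [SimpleGraph.Walk.support_nil, List.mem_singleton]
      exact hxy.ne'
    have h3 := p.take_spec hy
    rw [h1, h2] at h3
    rw [← h3, SimpleGraph.Walk.support_append]
    rfl
  · left
    have h1 : q = p.concat hxy := huniq _ _ _ _ hq (hp.concat hy hxy)
    rw [h1, SimpleGraph.Walk.support_concat]

theorem C5 {W : Type u} [Countable W] (H : SimpleGraph W) (hac : H.IsAcyclic) :
    ∃ f : W → List ℕ, Function.Injective f ∧
      ∀ x y, H.Adj x y → (∃ a, f y = a :: f x) ∨ (∃ a, f x = a :: f y) := by
  classical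
  obtain ⟨e, he⟩ := exists_injective_nat W
  have hr : ∀ x : W, H.Reachable (H.connectedComponentMk x).out x := by
    intro x
    exact SimpleGraph.ConnectedComponent.exact (Quot.out_eq (H.connectedComponentMk x))
  have hP : ∀ x : W, ∃ p : H.Walk (H.connectedComponentMk x).out x, p.IsPath := by
    intro x
    obtain ⟨p⟩ := hr x
    exact ⟨p.bypass, p.bypass_isPath⟩
  choose P hP using hP
  refine ⟨fun x => ((P x).support.map e).reverse, ?_, ?_⟩
  · intro x y hxy
    have h1 := List.reverse_injective hxy
    have h2 : ∀ z : W, ((P z).support.map e).getLast? = some (e z) := by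
      intro z
      rw [List.getLast?_map, List.getLast?_eq_getLast_of_ne_nil (SimpleGraph.Walk.support_ne_nil _),
        SimpleGraph.Walk.getLast_support]
      rfl
    have h3 := h2 x
    rw [h1, h2 y] at h3
    exact he (Option.some.inj h3).symm
  · intro x y hxy
    have hc : (H.connectedComponentMk y).out = (H.connectedComponentMk x).out := by
      rw [SimpleGraph.ConnectedComponent.sound hxy.reachable]
    rcases c5_step hac hc (P x) (hP x) (P y) (hP y) hxy with h | h
    · left
      refine ⟨e y, ?_⟩
      simp only [h, List.map_append, List.map_cons, List.map_nil, List.reverse_append,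
        List.reverse_cons, List.reverse_nil, List.nil_append, List.singleton_append]
    · right
      refine ⟨e x, ?_⟩
      simp only [h, List.map_append, List.map_cons, List.map_nil, List.reverse_append,
        List.reverse_cons, List.reverse_nil, List.nil_append, List.singleton_append]

end Pool.Agent.H40F
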