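import Pool.Agent.Lib.H40F.C1
import Pool.Agent.Lib.H40F.C3
import Pool.Agent.Lib.H40F.C4
import Pool.Agent.Lib.H40F.C5

/-!
# C6. Countable forests all of whose components are infinite fail

Proof. Host: the complete graph on `V = (Cardinal.aleph 1 : Cardinal.{u}).out` (uncountable). Let `F`
be strongly maximal and `G = SimpleGraph.fromEdgeSet F`. By `C1` the set of the vertices of finite
degree is a countable union of finite sets (`s(v, v) ∉ F`, so `{w | s(v, w) ∈ F}` is the neighbour
set). `C3` gives `S`, `C4` gives `g`, `C5` gives `f`; `g ∘ f` is injective and maps edges of `H` to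
`F`: contradiction to `hFree_iff`.
-/

namespace Pool.Agent.H40F

open Pool.Agent.StrongMax

universe u

theorem C6 {W : Type u} [Countable W] {H : SimpleGraph W} (hac : H.IsAcyclic)
    (hcomp : ∀ C : H.ConnectedComponent, C.supp.Infinite) : Fails.{u} H := by
  refine ⟨(Cardinal.aleph 1 : Cardinal.{u}).out, ⊤, fun F hF => ?_⟩
  have hloop : ∀ v w, s(v, w) ∈ F → v ≠ w := by
    intro v w h
    have h1 := hF.1 h
    rw [SimpleGraph.mem_edgeSet, SimpleGraph.top_adj] at h1
    exact h1
  have hV : ¬ (Set.univ : Set (Cardinal.aleph 1 : Cardinal.{u}).out).Countable := by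
    intro h
    have h1 : Countable (Cardinal.aleph 1 : Cardinal.{u}).out := Set.countable_univ_iff.1 h
    have h2 := Cardinal.mk_le_aleph0 (α := (Cardinal.aleph 1 : Cardinal.{u}).out)
    rw [Cardinal.mk_out] at h2
    exact absurd h2 (not_le.2 Cardinal.aleph0_lt_aleph_one)
  have hfin : {v | ((SimpleGraph.fromEdgeSet F).neighborSet v).Finite}.Countable := by
    have h1 : {v | ((SimpleGraph.fromEdgeSet F).neighborSet v).Finite} ⊆
        ⋃ D : ℕ, {v | {w | s(v, w) ∈ F}.encard ≤ (D : ℕ∞)} := by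
      intro v hv
      have h2 : ((SimpleGraph.fromEdgeSet F).neighborSet v).Finite := hv
      have h3 : {w | s(v, w) ∈ F} = (SimpleGraph.fromEdgeSet F).neighborSet v := by
        ext w
        rw [SimpleGraph.mem_neighborSet, SimpleGraph.fromEdgeSet_adj]
        exact ⟨fun h => ⟨h, hloop v w h⟩, fun h => h.1⟩
      refine Set.mem_iUnion.2 ⟨((SimpleGraph.fromEdgeSet F).neighborSet v).ncard, ?_⟩
      show {w | s(v, w) ∈ F}.encard ≤ _
      rw [h3, h2.cast_ncard_eq]
    exact (Set.countable_iUnion fun D => (C1 hcomp hF D).countable).mono h1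
  obtain ⟨S, hne, hS⟩ := C3 (SimpleGraph.fromEdgeSet F) hV hfin
  obtain ⟨g, hg, hga⟩ := C4 (SimpleGraph.fromEdgeSet F) S hne hS
  obtain ⟨f, hf, hfa⟩ := C5 H hac
  refine hFree_iff.1 hF.2.1 (g ∘ f) (hg.comp hf) fun a b hab => ?_
  show s(g (f a), g (f b)) ∈ F
  rcases hfa a b hab with ⟨n, hn⟩ | ⟨n, hn⟩
  · have h1 := hga n (f a)
    rw [← hn, SimpleGraph.fromEdgeSet_adj] at h1
    exact h1.1
  · have h1 := hga n (f b)
    rw [← hn, SimpleGraph.fromEdgeSet_adj] at h1
    rw [Sym2.eq_swap]
    exact h1.1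

end Pool.Agent.H40F
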