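import Pool.Agent.Lib.H40F.A1

/-!
# C7. Reduction to a union of components

`A` is a union of components of `H`, each vertex of `A` has a neighbour, and no component inside `A`
embeds in a component outside `A`. If the graph induced on `A` fails then `H` fails.

Proof. `A1` with `S = A`. Let `φ` be a `IsKEmb H A φ` and `x ∈ A`, and suppose `φ x = inr (ρ, k, z)`.
By induction along walks (`SimpleGraph.Reachable`), every vertex `y` of the component `C` of `x`
satisfies `φ y = inr (ρ, k, ζ y)` with `ζ y ∉ A`, and `ζ` maps edges to edges: `x` has a neighbour, so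
`x` is on an edge; its image is not of the kind (`inl`, `inl`); an edge `kAdj H A k' (inr a) (inl v)`
would give `H.Adj a.2.2 s` with `a.2.2 ∉ A`, `s ∈ A`, impossible since `A` is closed; so it is
`kAdj H A k' (inr a) (inr b)` and `a.1 = b.1`, `a.2.1 = b.2.1 = k'`, `a.2.2, b.2.2 ∉ A`,
`H.Adj a.2.2 b.2.2`. Let `D` be the component of `ζ x`; `D.supp ⊆ Aᶜ` as `A` is closed under
adjacency. `ζ` is injective on `C` (`φ` is), maps `C` to `D` (walks are mapped to walks) and edges to
edges: `Emb H C.supp D.supp`, contradiction to `hno`. (`C.supp ⊆ A` since `A` is closed.)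
-/

namespace Pool.Agent.H40F

open Pool.Agent.StrongMax

universe u

theorem c7_step {W : Type u} {H : SimpleGraph W} {A : Set W} (hcl : ∀ x ∈ A, ∀ y, H.Adj x y → y ∈ A)
    {V₀ K : Type u} {φ : W → V₀ ⊕ ((A → V₀) × K × W)} (hφ : IsKEmb H A φ) {x y : W}
    (h : H.Adj x y) {a : (A → V₀) × K × W} (hx : φ x = Sum.inr a) :
    ∃ b, φ y = Sum.inr b ∧ a.1 = b.1 ∧ a.2.1 = b.2.1 ∧ a.2.2 ∉ A ∧ b.2.2 ∉ A ∧
      H.Adj a.2.2 b.2.2 := by
  rcases hφ.2 x y h with ⟨v, w, hv, _⟩ | ⟨k, hk⟩
  · rw [hx] at hv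
    exact absurd hv (by simp)
  · rcases hy : φ y with v | b
    · rw [hx, hy] at hk
      obtain ⟨-, h4, s, -, h5⟩ := hk
      exact absurd (hcl s.1 s.2 _ h5.symm) h4
    · rw [hx, hy] at hk
      obtain ⟨h1, h2, h3, h4, h5, h6⟩ := hk
      exact ⟨b, rfl, h1, h2.trans h3.symm, h4, h5, h6⟩

theorem C7 {W : Type u} {H : SimpleGraph W} (A : Set W) (hcl : ∀ x ∈ A, ∀ y, H.Adj x y → y ∈ A)
    (hdeg : ∀ x ∈ A, ∃ y, H.Adj x y) (hAne : A.Nonempty)
    (hno : ∀ C D : H.ConnectedComponent, C.supp ⊆ A → D.supp ⊆ Aᶜ → ¬ Emb H C.supp D.supp)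
    (hf : Fails.{u} (H.induce A)) : Fails.{u} H := by
  classical
  refine A1 A ?_ hf ?_
  · intro V₀ K φ hφ x hx
    by_contra hcon
    obtain ⟨a, hxa⟩ : ∃ a, φ x = Sum.inr a := by
      rcases h : φ x with v | a
      · exact absurd ⟨v, h⟩ hcon
      · exact ⟨a, rfl⟩
    have hmemA : ∀ y, H.Reachable x y → y ∈ A := by
      rintro y ⟨p⟩
      clear hxa hcon
      induction p with
      | nil => exact hx
      | cons h q ih => exact ih (hcl _ hx _ h)
    have key : ∀ y, H.Reachable x y → ∃ b, φ y = Sum.inr b ∧ a.1 = b.1 ∧ a.2.1 = b.2.1 ∧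
        b.2.2 ∉ A ∧ H.Reachable a.2.2 b.2.2 := by
      rintro y ⟨p⟩
      have : ∀ (u w : W) (p : H.Walk u w) (c : (A → V₀) × K × W), φ u = Sum.inr c →
          c.2.2 ∉ A → ∃ b, φ w = Sum.inr b ∧ c.1 = b.1 ∧ c.2.1 = b.2.1 ∧
          b.2.2 ∉ A ∧ H.Reachable c.2.2 b.2.2 := by
        intro u w p
        induction p with
        | nil => intro c hc hcA; exact ⟨c, hc, rfl, rfl, hcA, SimpleGraph.Reachable.refl _⟩
        | cons h q ih =>
          intro c hc hcA
          obtain ⟨b, hb, h1, h2, -, h4, h5⟩ := c7_step hcl hφ h hc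
          obtain ⟨d, hd, h6, h7, h8, h9⟩ := ih b hb h4
          exact ⟨d, hd, h1.trans h6, h2.trans h7, h8, h5.reachable.trans h9⟩
      obtain ⟨y', hy'⟩ := hdeg x hx
      obtain ⟨-, -, -, -, h3, -, -⟩ := c7_step hcl hφ hy' hxa
      exact this x y p a hxa h3
    have hne0 : Nonempty ((↑A → V₀) × K × W) := ⟨a⟩
    choose! b hb using key
    apply hno (H.connectedComponentMk x) (H.connectedComponentMk a.2.2)
    · intro y hy
      exact hmemA y (SimpleGraph.ConnectedComponent.exact hy).symm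
    · intro y hy hyA
      obtain ⟨p⟩ := SimpleGraph.ConnectedComponent.exact hy
      have : ∀ (u w : W) (p : H.Walk u w), u ∈ A → w ∈ A := by
        intro u w p
        induction p with
        | nil => exact id
        | cons h q ih => exact fun hu => ih (hcl _ hu _ h)
      obtain ⟨y', hy'⟩ := hdeg x hx
      obtain ⟨-, -, -, -, h3, -, -⟩ := c7_step hcl hφ hy' hxa
      exact h3 (this _ _ p hyA)
    · have hr : ∀ y : (H.connectedComponentMk x).supp, H.Reachable x y.1 := fun y =>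
        (SimpleGraph.ConnectedComponent.exact y.2).symm
      refine ⟨fun y => (b y.1).2.2, ?_, ?_, ?_⟩
      · intro y z hyz
        obtain ⟨h1, h2, h3, -, -⟩ := hb y.1 (hr y)
        obtain ⟨h1', h2', h3', -, -⟩ := hb z.1 (hr z)
        apply Subtype.ext
        apply hφ.1
        rw [h1, h1']
        congr 1
        exact Prod.ext (h2.symm.trans h2') (Prod.ext (h3.symm.trans h3') hyz)
      · intro y
        obtain ⟨-, -, -, -, h5⟩ := hb y.1 (hr y)
        exact SimpleGraph.ConnectedComponent.sound h5.symm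
      · intro y z hyz
        obtain ⟨h1, h2, h3, -, -⟩ := hb y.1 (hr y)
        obtain ⟨d, hd, -, -, -, -, h6⟩ := c7_step hcl hφ hyz h1
        obtain ⟨h1', -, -, -, -⟩ := hb z.1 (hr z)
        rw [h1'] at hd
        have h7 := Sum.inr.inj hd
        show H.Adj (b y.1).2.2 (b z.1).2.2
        rw [h7]
        exact h6
  · obtain ⟨x, hx⟩ := hAne
    obtain ⟨y, hxy⟩ := hdeg x hx
    exact ⟨⟨x, hx⟩, ⟨y, hcl x hx y hxy⟩, hxy⟩

end Pool.Agent.H40F
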