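import Pool.Agent.Lib.H40F.B5

namespace Pool.Agent.H40F

universe u

theorem exists_isCycle_of_mem_cycV {W : Type u} {H : SimpleGraph W} {x : W} (hx : x ∈ cycV H) :
    ∃ p : H.Walk x x, p.IsCycle := by
  classical
  obtain ⟨n, f, hn, hf, ha, i, rfl⟩ := hx
  have hn0 : NeZero n := ⟨by omega⟩
  have hn1 : Fact (1 < n) := ⟨by omega⟩
  -- the edge s(f i, f (i+1)) is not a bridge
  have hadj := ha i
  have hnb : ¬ H.IsBridge s(f i, f (i + 1)) := by
    rw [SimpleGraph.isBridge_iff]
    intro hcon
    apply hcon
    have key : ∀ k : ℕ, k + 1 < n →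
        (H.deleteEdges {s(f i, f (i + 1))}).Reachable (f (i + 1)) (f (i + 1 + (k : ZMod n))) := by
      intro k
      induction k with
      | zero => intro _; simp
      | succ k ih =>
        intro hk
        refine (ih (by omega)).trans (SimpleGraph.Adj.reachable ?_)
        have h1 := ha (i + 1 + (k : ZMod n))
        have h2 : i + 1 + ((k + 1 : ℕ) : ZMod n) = i + 1 + (k : ZMod n) + 1 := by push_cast; ring
        rw [h2, SimpleGraph.deleteEdges_adj]
        refine ⟨h1, ?_⟩
        intro h3
        rw [Set.mem_singleton_iff, Sym2.eq_iff] at h3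
        rcases h3 with ⟨h3, -⟩ | ⟨h3, h4⟩
        · have h6 := hf h3
          have h5 : ((1 + k : ℕ) : ZMod n) = 0 := by
            push_cast
            linear_combination h6
          rw [ZMod.natCast_eq_zero_iff] at h5
          exact absurd (Nat.le_of_dvd (by omega) h5) (by omega)
        · have h6 := hf h4
          have h5 : ((k + 2 : ℕ) : ZMod n) = 0 := by
            push_cast
            linear_combination h6
          rw [ZMod.natCast_eq_zero_iff] at h5
          exact absurd (Nat.le_of_dvd (by omega) h5) (by omega)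
    have h6 := key (n - 2) (by omega)
    -- last step
    refine ((h6.trans (SimpleGraph.Adj.reachable ?_))).symm
    have h7 : i + 1 + ((n - 2 : ℕ) : ZMod n) + 1 = i := by
      rw [Nat.cast_sub (by omega), ZMod.natCast_self]
      push_cast
      ring
    have h1 := ha (i + 1 + ((n - 2 : ℕ) : ZMod n))
    rw [h7] at h1
    rw [SimpleGraph.deleteEdges_adj]
    refine ⟨h1, ?_⟩
    intro h3
    rw [Set.mem_singleton_iff, Sym2.eq_iff] at h3
    rcases h3 with ⟨h3, h4⟩ | ⟨h3, -⟩
    · exact hadj.ne h4
    · have h8 := hf h3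
      have h5 : ((n - 2 : ℕ) : ZMod n) = 0 := by
        linear_combination h8
      rw [ZMod.natCast_eq_zero_iff] at h5
      exact absurd (Nat.le_of_dvd (by omega) h5) (by omega)
  rw [SimpleGraph.isBridge_iff_forall_cycle_notMem (by exact hadj)] at hnb
  push Not at hnb
  obtain ⟨u, p, hp, he⟩ := hnb
  have hmem : f i ∈ p.support := p.fst_mem_support_of_mem_edges he
  exact ⟨p.rotate _ hmem, hp.rotate hmem⟩

end Pool.Agent.H40F
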