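import Pool.Agent.Lib.StrongMax.Basic42
import Pool.Agent.Lib.StrongMax.Kernel
import Pool.Agent.Lib.StrongMax.Disconnected
import Pool.Agent.Lib.StrongMax.FinEdges
import Pool.Agent.Lib.StrongMax.LocFin

/-!
# Short cycle cores and forests (MP_fc2b6d_co): definitions

Cycles and paths are written as functions, which is convenient for index arithmetic.
-/

namespace Pool.Agent.H40F

open Pool.Agent.StrongMax

universe u v

/-- The `L`-core of `H`: the least set of vertices which contains the vertices of all cycles of
length at most `L` and which is closed under paths of length at most `L` (a path of length at most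
`L` whose ends are in the core lies in the core). `L` may be infinite. A cycle of length `n` is an
injective map `f : ZMod n → W` with `f i` adjacent to `f (i + 1)`, `n ≥ 3`; a path of length `n` is
a map `f : ℕ → W` which is injective on `{0, …, n}` and has `f i` adjacent to `f (i + 1)` for
`i < n`. -/
inductive InCore {W : Type v} (H : SimpleGraph W) (L : ℕ∞) : W → Prop
  | cyc (n : ℕ) (f : ZMod n → W) (hn : 3 ≤ n) (hL : (n : ℕ∞) ≤ L) (hf : Function.Injective f)
      (ha : ∀ i, H.Adj (f i) (f (i + 1))) (i : ZMod n) : InCore H L (f i)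
  | path (n : ℕ) (f : ℕ → W) (hL : (n : ℕ∞) ≤ L)
      (hf : ∀ i j, i ≤ n → j ≤ n → f i = f j → i = j) (ha : ∀ i, i < n → H.Adj (f i) (f (i + 1)))
      (h0 : InCore H L (f 0)) (h1 : InCore H L (f n)) (i : ℕ) (hi : i ≤ n) : InCore H L (f i)

/-- The `L`-core as a set. -/
def core {W : Type v} (H : SimpleGraph W) (L : ℕ∞) : Set W := {x | InCore H L x}

/-- `φ` embeds `H` in the graph consisting of a graph on `V₀` (the left summand) and of all private
copies `k` of `H - S`, attached by all maps `ρ : S → V₀` (see `kAdj`). -/
def IsKEmb {W : Type u} (H : SimpleGraph W) (S : Set W) {V₀ K : Type u}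
    (φ : W → V₀ ⊕ ((S → V₀) × K × W)) : Prop :=
  Function.Injective φ ∧ ∀ x y, H.Adj x y →
    (∃ v w, φ x = Sum.inl v ∧ φ y = Sum.inl w) ∨ ∃ k, kAdj H S k (φ x) (φ y)

/-- The vertices that lie on a cycle. -/
def cycV {W : Type v} (H : SimpleGraph W) : Set W :=
  {x | ∃ (n : ℕ) (f : ZMod n → W), 3 ≤ n ∧ Function.Injective f ∧
    (∀ i, H.Adj (f i) (f (i + 1))) ∧ ∃ i, f i = x}

/-- The class of a component `C`: all components in which `C` embeds. -/
def cls {W : Type v} (H : SimpleGraph W) (C : H.ConnectedComponent) :
    Set H.ConnectedComponent := {D | Emb H C.supp D.supp}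

/-- `C` is maximal: every component in which `C` embeds embeds in `C`. -/
def IsMax {W : Type v} (H : SimpleGraph W) (C : H.ConnectedComponent) : Prop :=
  ∀ D : H.ConnectedComponent, Emb H C.supp D.supp → Emb H D.supp C.supp

/-- The vertices of the components in the class of `C`. -/
def clsV {W : Type v} (H : SimpleGraph W) (C : H.ConnectedComponent) : Set W :=
  {x | H.connectedComponentMk x ∈ cls H C}

end Pool.Agent.H40F
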