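import Pool.Agent.Lib.H40F.B4
import Pool.Agent.Lib.H40F.B5
import Pool.Agent.Lib.H40F.C10
import Pool.Agent.Lib.H40F.C11

/-!
# Assembly
-/

namespace Pool.Agent.H40F

open Pool.Agent.StrongMax

universe u

/-- Forests with countable components. -/
theorem forest_fails {W : Type u} {H : SimpleGraph W} (hac : H.IsAcyclic)
    (hcnt : ∀ C : H.ConnectedComponent, C.supp.Countable) (hinf : ¬ H.edgeSet.Finite) :
    Fails.{u} H := by
  by_cases h : ∃ C : H.ConnectedComponent, (∃ x ∈ C.supp, ∃ y, H.Adj x y) ∧ IsMax H C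
  · obtain ⟨C, hedge, hmax⟩ := h
    by_cases hfin : C.supp.Finite
    · exact C11 hinf C hedge hmax hfin
    · exact C10 hac C hmax hfin (hcnt C)
  · push Not at h
    exact C9b h

/-- Graphs with at least one but only finitely many cycles. -/
theorem finCycles_fails {W : Type u} {H : SimpleGraph W} (hne : (cycV H).Nonempty)
    (hfin : (cycV H).Finite) : Fails.{u} H := by
  have hc : (core H ⊤).Nonempty := by
    obtain ⟨x, n, f, hn, hf, ha, i, rfl⟩ := hne
    exact ⟨f i, InCore.cyc n f hn le_top hf ha i⟩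
  exact B4b ⊤ hc (fun x _ => (B5 hfin).subset (fun y hy => hy.1))

end Pool.Agent.H40F
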