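import Pool.Agent.Lib.StrongMax.FinEdges
import Pool.Agent.Lib.StrongMax.StarGood
import Pool.Agent.Lib.H70A.Z5
import Pool.Agent.Lib.H40F.Main
import Pool.Agent.Lib.H40F.Cyc

/-!
# Classification for graphs with finitely many edges, and with few cycles
-/

namespace Pool.Agent.H40F

open Pool.Agent.StrongMax

universe u

/-- The graphs with finitely many edges. -/
theorem finite_classification {W : Type u} (H : SimpleGraph W) (hfin : H.edgeSet.Finite) :
    (∀ (V : Type u) (G : SimpleGraph V), ∃ F : Set (Sym2 V), StronglyMaximal H G F) ↔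
      H ≠ ⊥ ∧ ∃ z : W, ∀ a b : W, H.Adj a b → a = z ∨ b = z := by
  constructor
  · intro hprop
    constructor
    · intro hbot
      obtain ⟨V, G, hG⟩ := fails_of_eq_bot hbot
      obtain ⟨F, hF⟩ := hprop V G
      exact hG F hF
    · by_contra hcon
      obtain ⟨V, G, hG⟩ := fails_of_finEdges hfin hcon
      obtain ⟨F, hF⟩ := hprop V G
      exact hG F hF
  · rintro ⟨hne, z, hz⟩ V G
    refine star_good (fun V' G' => Pool.Agent.H70A.exists_sm V' G') hfin hz ?_ V G
    by_contra hcon
    push Not at hcon
    refine hne ?_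
    ext a b
    simp [hcon a b]

/-- The graphs with few cycles. -/
theorem few_cycles {W : Type u} (H : SimpleGraph W)
    (hcyc : {x : W | ∃ p : H.Walk x x, p.IsCycle}.Finite)
    (hcnt : H.IsAcyclic → ∀ C : H.ConnectedComponent, C.supp.Countable)
    (hinf : ¬ H.edgeSet.Finite) : Fails.{u} H := by
  have hsub : cycV H ⊆ {x : W | ∃ p : H.Walk x x, p.IsCycle} :=
    fun x hx => exists_isCycle_of_mem_cycV hx
  by_cases hne : (cycV H).Nonempty
  · exact finCycles_fails hne (hcyc.subset hsub)
  · have hac : H.IsAcyclic := by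
      intro v c hc
      exact hne ⟨v, mem_cycV_of_isCycle c hc v c.start_mem_support⟩
    exact forest_fails hac (hcnt hac) hinf

end Pool.Agent.H40F
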